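import Pool.Agent.Helper78.MEI.Ebd
import Pool.Agent.Helper78.MEI.FGM

/-!
# Project MEI (M2): the value of the certificate at a corner in linear form

Multipliers `r` (apex and arcs in the cone) and `s` (arcs in the strips):
`cone_part`, `strip_part`, `GM_lin` (all nodes), `GM_corner` (corner `k`, other indices `j`, `l`):
`GM t ≤ - Σ T3 S + (e1 xx_k + e2 T3_j + e3 T3_l)`, `GM_corner_min` (`xx_k ≤ min (..)`),
`GM_corner_body` (placed body).
-/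

set_option autoImplicit false

namespace Pool.Agent.Helper58.MEI

open Set Metric MeasureTheory Helper80.CW Helper82.CW Helper14.CW Helper93.MEI Helper82.M2
open Helper14.MEI2 Pool.Agent.Helper52.MEI Pool.Agent.Helper73.MEI Helper78.MEI Helper41.MEI
open Helper37.MEI
open Helper33.MEI (Wi Dl tx M3 mt mt_pos)
open Pool.Agent.Helper55.Sx (Sim)
open Pool.Agent.Helper55.Mass (LN LN_nonneg vv vv_nonneg vv_le Id)
open Pool.Agent.Helper55.Apex (nc vt_vv)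
open Pool.Agent.Helper55.ApexP (PN alP alP_nonneg xx_mu)
open Pool.Agent.Helper55.Fill (xx rr xx_nonneg xx_le xx_feas rr_nonneg)
open Pool.Agent.Helper73.MEI.SideP (flP flP_meas flP_nonneg flP_zero flP_pair)
open Pool.Agent.Helper96.Kap (kap kap_nonneg kap_meas kap_le_one kap_add)
open Pool.Agent.Helper31.SR
open Helper75.MEI2 (mu vt)
open scoped RealInnerProductSpace ENNReal

section algebra
variable {N : Fin 3 → Fin 3 → ℝ} {ζ ζp : Fin 3 → ℝ} {hf κ : Fin 3 → ℝ × ℝ → ℝ}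
  {β ρ : Fin 3 → ℝ} {A' lam lamM : ℝ} {M : Fin 3 → Fin 3 → ℝ}

/-- **apex and arcs in the cone against the loads** -/
theorem cone_part (hN : ∀ k m, 0 ≤ N k m) (hd : ∀ k, N k k = 0) {c : ℝ} (hc : c < 1)
    (hcol : ∀ m, nc N m ≤ c) (hζp : ∀ k, 0 < ζp k) (hl0 : 0 ≤ lam) (hl1 : lam ≤ lamM)
    (hf0 : ∀ l, ∀ t, 0 ≤ hf l t)
    (hfz : ∀ l, ∀ t, (¬ ∀ k, 0 ≤ mu (PN N) (vt t) k) → hf l t = 0)
    (hfx : ∀ t, (∀ k, 0 ≤ mu (PN N) (vt t) k) → ∀ k,
      lamM * alP N ζp t * ζp k + ((hf 0 t + hf 1 t + hf 2 t) - hf k t) ≤ mu (PN N) (vt t) k)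
    (hA' : 0 < A') (hF0 : ∀ p, 0 < Id (hf p)) (hβ1 : ∀ p, β p ≤ 1)
    (hF : ∀ p, (1 - β p) * ρ p ≤ A' * Id (hf p))
    {el γ r : Fin 3 → ℝ} (hel : ∀ l, el l ≤ γ l * ρ l) (hγ0 : ∀ l, 0 ≤ γ l)
    (hr0 : ∀ k, 0 ≤ r k) {ex : ℝ} (hex : ex ≤ r 0 * ζp 0 + r 1 * ζp 1 + r 2 * ζp 2)
    (hrγ : ∀ m, γ m ≤ (r 0 + r 1 + r 2) - r m) {t : ℝ × ℝ} (ht : t ∈ Sim) :
    lam * alP N ζp t * ex + ∑ l, ash hf (fun p => Id (hf p)) β A' l t * el l ≤
      r 0 * xx N (vv t) 0 + r 1 * xx N (vv t) 1 + r 2 * xx N (vv t) 2 := by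
  have hx := fun k => xx_nonneg hN hc hcol (fun k => vv_nonneg ht k) k
  by_cases h : ∀ k, 0 ≤ mu (PN N) (vt t) k
  · have h2 : ∀ k, xx N (vv t) k = mu (PN N) (vt t) k := fun k => by
      rw [← vt_vv, xx_mu hN hd hc hcol h]
    have arc : ∀ l, ash hf (fun p => Id (hf p)) β A' l t * el l ≤ γ l * hf l t := by
      intro l
      have hAF : 0 < A' * Id (hf l) := mul_pos hA' (hF0 l)
      have hb : 0 ≤ 1 - β l := by have := hβ1 l; linarith
      have g0 : 0 ≤ hf l t / (A' * Id (hf l)) := div_nonneg (hf0 l t) hAF.le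
      have ga : 0 ≤ ash hf (fun p => Id (hf p)) β A' l t := mul_nonneg hb g0
      have g1 := mul_le_mul_of_nonneg_left (hel l) ga
      have g2 := mul_le_mul_of_nonneg_left (hF l) (mul_nonneg (hγ0 l) g0)
      have g3 : hf l t / (A' * Id (hf l)) * (A' * Id (hf l)) = hf l t :=
        div_mul_cancel₀ _ hAF.ne'
      have e1 : ash hf (fun p => Id (hf p)) β A' l t * (γ l * ρ l) =
          γ l * (hf l t / (A' * Id (hf l))) * ((1 - β l) * ρ l) := by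
        unfold ash
        ring
      have e2 : γ l * (hf l t / (A' * Id (hf l))) * (A' * Id (hf l)) = γ l * hf l t := by
        rw [mul_assoc, g3]
      linarith
    have a0 := arc 0
    have a1 := arc 1
    have a2 := arc 2
    rw [Fin.sum_univ_three, h2 0, h2 1, h2 2]
    have ha0 := alP_nonneg (N := N) hζp t
    have hR : 0 ≤ r 0 * ζp 0 + r 1 * ζp 1 + r 2 * ζp 2 := by
      have := mul_nonneg (hr0 0) (hζp 0).le
      have := mul_nonneg (hr0 1) (hζp 1).le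
      have := mul_nonneg (hr0 2) (hζp 2).le
      linarith
    have b1 : lam * alP N ζp t * ex ≤
        lamM * alP N ζp t * (r 0 * ζp 0 + r 1 * ζp 1 + r 2 * ζp 2) := by
      have c1 := mul_le_mul_of_nonneg_left hex (mul_nonneg hl0 ha0)
      have c2 := mul_le_mul_of_nonneg_right (mul_le_mul_of_nonneg_right hl1 ha0) hR
      linarith
    have m0 := mul_le_mul_of_nonneg_left (hfx t h 0) (hr0 0)
    have m1 := mul_le_mul_of_nonneg_left (hfx t h 1) (hr0 1)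
    have m2 := mul_le_mul_of_nonneg_left (hfx t h 2) (hr0 2)
    have n0 := mul_le_mul_of_nonneg_right (hrγ 0) (hf0 0 t)
    have n1 := mul_le_mul_of_nonneg_right (hrγ 1) (hf0 1 t)
    have n2 := mul_le_mul_of_nonneg_right (hrγ 2) (hf0 2 t)
    linarith
  · have h1 : alP N ζp t = 0 := by
      unfold alP
      rw [if_neg h]
    have z0 := mul_nonneg (hr0 0) (hx 0)
    have z1 := mul_nonneg (hr0 1) (hx 1)
    have z2 := mul_nonneg (hr0 2) (hx 2)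
    rw [Fin.sum_univ_three]
    unfold ash
    rw [h1, hfz 0 t h, hfz 1 t h, hfz 2 t h]
    simp only [zero_div, mul_zero, zero_mul, add_zero]
    linarith

/-- **arcs in the strips against the residual** -/
theorem strip_part (hκ0 : ∀ l, ∀ t ∈ Sim, 0 ≤ κ l t)
    (hκr : ∀ t ∈ Sim, ∀ k, (κ 0 t + κ 1 t + κ 2 t) - κ k t ≤ rr N (vv t) k)
    (hA' : 0 < A') (hβ0 : ∀ p, 0 ≤ β p) (hKp : ∀ p, 0 ≤ Id (κ p))
    (hK : ∀ p, β p * ρ p ≤ A' * Id (κ p)) (hMl : ∀ l, M l l = 0) (hMρ : ∀ l k, M l k ≤ ρ l)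
    {S el γ s : Fin 3 → ℝ} (hS : ∀ k, 0 ≤ S k) (hel : ∀ l, el l ≤ γ l * ρ l)
    (hγ0 : ∀ l, 0 ≤ γ l) (hs0 : ∀ k, 0 ≤ s k)
    (hsγ : ∀ m, γ m + ((S 0 + S 1 + S 2) - S m) ≤ (s 0 + s 1 + s 2) - s m)
    {t : ℝ × ℝ} (ht : t ∈ Sim) :
    ∑ l, ast κ (fun p => Id (κ p)) β A' l t * (el l + (M l 0 * S 0 + M l 1 * S 1 + M l 2 * S 2))
      ≤ s 0 * rr N (vv t) 0 + s 1 * rr N (vv t) 1 + s 2 * rr N (vv t) 2 := by
  have lev : ∀ l, el l + (M l 0 * S 0 + M l 1 * S 1 + M l 2 * S 2) ≤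
      (γ l + ((S 0 + S 1 + S 2) - S l)) * ρ l := by
    intro l
    have k0 := mul_le_mul_of_nonneg_right (hMρ l 0) (hS 0)
    have k1 := mul_le_mul_of_nonneg_right (hMρ l 1) (hS 1)
    have k2 := mul_le_mul_of_nonneg_right (hMρ l 2) (hS 2)
    have h := hel l
    have hd := hMl l
    fin_cases l
    · simp only [Fin.zero_eta] at *
      rw [hd]
      linarith
    · simp only [Fin.mk_one] at *
      rw [hd]
      linarith
    · simp only [Fin.reduceFinMk] at *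
      rw [hd]
      linarith
  have hΓ : ∀ l, 0 ≤ γ l + ((S 0 + S 1 + S 2) - S l) := by
    intro l
    have h0 := hS 0
    have h1 := hS 1
    have h2 := hS 2
    have hg := hγ0 l
    fin_cases l
    · simp only [Fin.zero_eta] at *
      linarith
    · simp only [Fin.mk_one] at *
      linarith
    · simp only [Fin.reduceFinMk] at *
      linarith
  have arc : ∀ l, ast κ (fun p => Id (κ p)) β A' l t *
      (el l + (M l 0 * S 0 + M l 1 * S 1 + M l 2 * S 2)) ≤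
      (γ l + ((S 0 + S 1 + S 2) - S l)) * κ l t := by
    intro l
    have hk0 := hκ0 l t ht
    have ga : 0 ≤ ast κ (fun p => Id (κ p)) β A' l t := ast_nonneg hκ0 hA' hβ0 hKp l ht
    have g1 := mul_le_mul_of_nonneg_left (lev l) ga
    refine g1.trans ?_
    rcases eq_or_lt_of_le (mul_nonneg hA'.le (hKp l)) with e | hpos
    · have z : ast κ (fun p => Id (κ p)) β A' l t = 0 := by
        unfold ast
        rw [← e]
        simp
      rw [z, zero_mul]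
      exact mul_nonneg (hΓ l) hk0
    · have g0 : 0 ≤ κ l t / (A' * Id (κ l)) := div_nonneg hk0 hpos.le
      have g2 := mul_le_mul_of_nonneg_left (hK l) (mul_nonneg (hΓ l) g0)
      have g3 : κ l t / (A' * Id (κ l)) * (A' * Id (κ l)) = κ l t := div_mul_cancel₀ _ hpos.ne'
      have e1 : ast κ (fun p => Id (κ p)) β A' l t *
          ((γ l + ((S 0 + S 1 + S 2) - S l)) * ρ l) =
          (γ l + ((S 0 + S 1 + S 2) - S l)) * (κ l t / (A' * Id (κ l))) * (β l * ρ l) := by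
        unfold ast
        ring
      have e2 : (γ l + ((S 0 + S 1 + S 2) - S l)) * (κ l t / (A' * Id (κ l))) *
          (A' * Id (κ l)) = (γ l + ((S 0 + S 1 + S 2) - S l)) * κ l t := by
        rw [mul_assoc, g3]
      linarith
  have a0 := arc 0
  have a1 := arc 1
  have a2 := arc 2
  have m0 := mul_le_mul_of_nonneg_left (hκr t ht 0) (hs0 0)
  have m1 := mul_le_mul_of_nonneg_left (hκr t ht 1) (hs0 1)
  have m2 := mul_le_mul_of_nonneg_left (hκr t ht 2) (hs0 2)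
  have n0 := mul_le_mul_of_nonneg_right (hsγ 0) (hκ0 0 t ht)
  have n1 := mul_le_mul_of_nonneg_right (hsγ 1) (hκ0 1 t ht)
  have n2 := mul_le_mul_of_nonneg_right (hsγ 2) (hκ0 2 t ht)
  rw [Fin.sum_univ_three]
  linarith

/-- **linear bound of the value**: `V k = R k + S k + Σ_m N m k S m` -/
theorem GM_lin (hN : ∀ k m, 0 ≤ N k m) (hd : ∀ k, N k k = 0) {c : ℝ} (hc : c < 1)
    (hcol : ∀ m, nc N m ≤ c) (hζp : ∀ k, 0 < ζp k) (hl0 : 0 ≤ lam) (hl1 : lam ≤ lamM)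
    (hf0 : ∀ l, ∀ t, 0 ≤ hf l t)
    (hfz : ∀ l, ∀ t, (¬ ∀ k, 0 ≤ mu (PN N) (vt t) k) → hf l t = 0)
    (hfx : ∀ t, (∀ k, 0 ≤ mu (PN N) (vt t) k) → ∀ k,
      lamM * alP N ζp t * ζp k + ((hf 0 t + hf 1 t + hf 2 t) - hf k t) ≤ mu (PN N) (vt t) k)
    (hκ0 : ∀ l, ∀ t ∈ Sim, 0 ≤ κ l t)
    (hκr : ∀ t ∈ Sim, ∀ k, (κ 0 t + κ 1 t + κ 2 t) - κ k t ≤ rr N (vv t) k)
    (hA' : 0 < A') (hF0 : ∀ p, 0 < Id (hf p)) (hKp : ∀ p, 0 ≤ Id (κ p))
    (hβ0 : ∀ p, 0 ≤ β p) (hβ1 : ∀ p, β p ≤ 1)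
    (hF : ∀ p, (1 - β p) * ρ p ≤ A' * Id (hf p)) (hK : ∀ p, β p * ρ p ≤ A' * Id (κ p))
    (hM0 : ∀ l k, 0 ≤ M l k) (hMl : ∀ l, M l l = 0) (hMρ : ∀ l k, M l k ≤ ρ l)
    {E R S γ r s : Fin 3 → ℝ} (hR : ∀ k, 0 ≤ R k) (hS : ∀ k, 0 ≤ S k)
    (hE : ∀ l, E l ≤ γ l * ρ l) (hγ0 : ∀ l, 0 ≤ γ l) (hr0 : ∀ k, 0 ≤ r k) (hs0 : ∀ k, 0 ≤ s k)
    {s0 : ℝ} (hex : s0 - (ζ 0 * R 0 + ζ 1 * R 1 + ζ 2 * R 2) ≤
      r 0 * ζp 0 + r 1 * ζp 1 + r 2 * ζp 2)
    (hrγ : ∀ m, γ m ≤ (r 0 + r 1 + r 2) - r m)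
    (hsγ : ∀ m, γ m + ((S 0 + S 1 + S 2) - S m) ≤ (s 0 + s 1 + s 2) - s m)
    {t : ℝ × ℝ} (ht : t ∈ Sim) :
    GM A' N ζ ζp lam hf κ β M E R S s0 t ≤
      -(T3 t 0 * S 0 + T3 t 1 * S 1 + T3 t 2 * S 2)
      + (xx N (vv t) 0 * (R 0 + (S 0 + (N 0 0 * S 0 + N 1 0 * S 1 + N 2 0 * S 2)) + r 0)
        + xx N (vv t) 1 * (R 1 + (S 1 + (N 0 1 * S 0 + N 1 1 * S 1 + N 2 1 * S 2)) + r 1)
        + xx N (vv t) 2 * (R 2 + (S 2 + (N 0 2 * S 0 + N 1 2 * S 1 + N 2 2 * S 2)) + r 2))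
      + (s 0 * rr N (vv t) 0 + s 1 * rr N (vv t) 1 + s 2 * rr N (vv t) 2) := by
  have h1 := GM_le hN hA' hζp hl0 hf0 hF0 hκ0 hKp hβ0 hβ1 hM0 hR hS (E := E)
    (hex := le_refl (s0 - (ζ 0 * R 0 + ζ 1 * R 1 + ζ 2 * R 2))) (hel := fun l => hE l) ht
    (xb := xx N (vv t)) (fun k => le_rfl)
  have h2 := cone_part hN hd hc hcol hζp hl0 hl1 hf0 hfz hfx hA' hF0 hβ1 hF
    (el := fun l => γ l * ρ l) (fun l => le_rfl) hγ0 hr0 hex hrγ ht
  have h3 := strip_part (N := N) (M := M) hκ0 hκr hA' hβ0 hKp hK hMl hMρ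
    (el := fun l => γ l * ρ l) hS (fun l => le_rfl) hγ0 hs0 hsγ ht
  linarith

/-- a sum over the three indices -/
theorem sum3 (F : Fin 3 → ℝ) {k j l : Fin 3} (hkj : k ≠ j) (hkl : k ≠ l) (hjl : j ≠ l) :
    F 0 + F 1 + F 2 = F k + F j + F l := by
  fin_cases k <;> fin_cases j <;> fin_cases l <;>
    simp only [Fin.zero_eta, Fin.mk_one, Fin.reduceFinMk, ne_eq, not_true_eq_false] at hkj hkl hjl ⊢
  all_goals ring

/-- **THE CORNER `k`**, multipliers `r` (cone) and `s` (strips, `s k = 0`) -/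
theorem GM_corner (hN : ∀ k m, 0 ≤ N k m) (hd : ∀ k, N k k = 0) {c : ℝ} (hc : c < 1)
    (hcol : ∀ m, nc N m ≤ c) (hζp : ∀ k, 0 < ζp k) (hl0 : 0 ≤ lam) (hl1 : lam ≤ lamM)
    (hf0 : ∀ l, ∀ t, 0 ≤ hf l t)
    (hfz : ∀ l, ∀ t, (¬ ∀ k, 0 ≤ mu (PN N) (vt t) k) → hf l t = 0)
    (hfx : ∀ t, (∀ k, 0 ≤ mu (PN N) (vt t) k) → ∀ k,
      lamM * alP N ζp t * ζp k + ((hf 0 t + hf 1 t + hf 2 t) - hf k t) ≤ mu (PN N) (vt t) k)
    (hκ0 : ∀ l, ∀ t ∈ Sim, 0 ≤ κ l t)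
    (hκr : ∀ t ∈ Sim, ∀ k, (κ 0 t + κ 1 t + κ 2 t) - κ k t ≤ rr N (vv t) k)
    (hA' : 0 < A') (hF0 : ∀ p, 0 < Id (hf p)) (hKp : ∀ p, 0 ≤ Id (κ p))
    (hβ0 : ∀ p, 0 ≤ β p) (hβ1 : ∀ p, β p ≤ 1)
    (hF : ∀ p, (1 - β p) * ρ p ≤ A' * Id (hf p)) (hK : ∀ p, β p * ρ p ≤ A' * Id (κ p))
    (hM0 : ∀ l k, 0 ≤ M l k) (hMl : ∀ l, M l l = 0) (hMρ : ∀ l k, M l k ≤ ρ l)
    {E R S γ r s : Fin 3 → ℝ} (hR : ∀ k, 0 ≤ R k) (hS : ∀ k, 0 ≤ S k)
    (hE : ∀ l, E l ≤ γ l * ρ l) (hγ0 : ∀ l, 0 ≤ γ l) (hr0 : ∀ k, 0 ≤ r k) (hs0 : ∀ k, 0 ≤ s k)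
    {s0 : ℝ} (hex : s0 - (ζ 0 * R 0 + ζ 1 * R 1 + ζ 2 * R 2) ≤
      r 0 * ζp 0 + r 1 * ζp 1 + r 2 * ζp 2)
    (hrγ : ∀ m, γ m ≤ (r 0 + r 1 + r 2) - r m)
    (hsγ : ∀ m, γ m + ((S 0 + S 1 + S 2) - S m) ≤ (s 0 + s 1 + s 2) - s m)
    {k j l : Fin 3} (hkj : k ≠ j) (hkl : k ≠ l) (hjl : j ≠ l) (hsk : s k = 0) {e1 e2 e3 : ℝ}
    (he2 : R j + S j + N k j * S k + r j ≤ e2) (he2' : s j ≤ e2)
    (he3 : R l + S l + N k l * S k + r l ≤ e3) (he3' : s l ≤ e3)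
    (he1 : R k + S k + r k ≤ e1 + N j k * (e2 - S j) + N l k * (e3 - S l))
    {t : ℝ × ℝ} (ht : t ∈ Sim) :
    GM A' N ζ ζp lam hf κ β M E R S s0 t ≤
      -(T3 t 0 * S 0 + T3 t 1 * S 1 + T3 t 2 * S 2)
      + (e1 * xx N (vv t) k + e2 * T3 t j + e3 * T3 t l) := by
  have h1 := GM_lin hN hd hc hcol hζp hl0 hl1 hf0 hfz hfx hκ0 hκr hA' hF0 hKp hβ0 hβ1 hF hK hM0
    hMl hMρ hR hS hE hγ0 hr0 hs0 hex hrγ hsγ ht
  have hb : ∀ k, 0 ≤ vv t k := fun k => vv_nonneg ht k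
  have hx := fun k => xx_nonneg hN hc hcol hb k
  have hr := fun k => rr_nonneg hN hc hcol hb k
  have q1 := sum3 (fun m => xx N (vv t) m *
    (R m + (S m + (N 0 m * S 0 + N 1 m * S 1 + N 2 m * S 2)) + r m)) hkj hkl hjl
  have q2 := sum3 (fun m => s m * rr N (vv t) m) hkj hkl hjl
  have qS : ∀ m, N 0 m * S 0 + N 1 m * S 1 + N 2 m * S 2 =
      N k m * S k + N j m * S j + N l m * S l := fun m =>
    sum3 (fun i => N i m * S i) hkj hkl hjl
  have qL : ∀ m, LN N (xx N (vv t)) m =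
      N m k * xx N (vv t) k + N m j * xx N (vv t) j + N m l * xx N (vv t) l := fun m => by
    unfold LN
    exact sum3 (fun i => N m i * xx N (vv t) i) hkj hkl hjl
  have ej : T3 t j = xx N (vv t) j + (N j k * xx N (vv t) k + N j j * xx N (vv t) j
      + N j l * xx N (vv t) l) + rr N (vv t) j := by
    rw [T3_vv, ← qL j]
    unfold rr
    ring
  have el : T3 t l = xx N (vv t) l + (N l k * xx N (vv t) k + N l j * xx N (vv t) j
      + N l l * xx N (vv t) l) + rr N (vv t) l := by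
    rw [T3_vv, ← qL l]
    unfold rr
    ring
  rw [hd] at ej el
  simp only [qS, hd] at q1
  simp only [hd] at h1
  have nkj := mul_nonneg (hN k j) (hS k)
  have nkl := mul_nonneg (hN k l) (hS k)
  have sj : S j ≤ e2 := by
    have := hR j
    have := hr0 j
    linarith
  have sl : S l ≤ e3 := by
    have := hR l
    have := hr0 l
    linarith
  have se2 : 0 ≤ e2 := (hS j).trans sj
  have se3 : 0 ≤ e3 := (hS l).trans sl
  -- the coefficients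
  have c1 := mul_le_mul_of_nonneg_right he1 (hx k)
  have c2 := mul_le_mul_of_nonneg_right he2 (hx j)
  have c2' := mul_nonneg (mul_nonneg (hN l j) (sub_nonneg.2 sl)) (hx j)
  have c3 := mul_le_mul_of_nonneg_right he3 (hx l)
  have c3' := mul_nonneg (mul_nonneg (hN j l) (sub_nonneg.2 sj)) (hx l)
  have c4 := mul_le_mul_of_nonneg_right he2' (hr j)
  have c5 := mul_le_mul_of_nonneg_right he3' (hr l)
  rw [hsk] at q2
  rw [ej, el]
  linarith

/-- with an upper bound of the load of the node `k` -/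
theorem xx_corner (hN : ∀ k m, 0 ≤ N k m) {c : ℝ} (hc : c < 1)
    (hcol : ∀ m, nc N m ≤ c) {k j l : Fin 3} {p q Mx : ℝ} (hp : p ≤ N j k) (hq : q ≤ N l k)
    {t : ℝ × ℝ} (ht : t ∈ Sim)
    (hM : ∀ u, 0 ≤ u → u ≤ T3 t k → p * u ≤ T3 t j → q * u ≤ T3 t l → u ≤ Mx) :
    xx N (vv t) k ≤ Mx := by
  have hb : ∀ k, 0 ≤ vv t k := fun k => vv_nonneg ht k
  have hx := fun k => xx_nonneg hN hc hcol hb k
  have wall : ∀ m, N m k * xx N (vv t) k ≤ T3 t m := by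
    intro m
    have h1 := xx_feas hN hc hcol hb m
    have h2 : N m k * xx N (vv t) k ≤ LN N (xx N (vv t)) m := by
      have n0 := mul_nonneg (hN m 0) (hx 0)
      have n1 := mul_nonneg (hN m 1) (hx 1)
      have n2 := mul_nonneg (hN m 2) (hx 2)
      unfold LN
      fin_cases k
      · simp only [Fin.zero_eta]
        linarith
      · simp only [Fin.mk_one]
        linarith
      · simp only [Fin.reduceFinMk]
        linarith
    have h3 := hx m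
    rw [T3_vv]
    linarith
  refine hM _ (hx k) ?_ ?_ ?_
  · rw [T3_vv]
    exact xx_le hN hc hcol hb k
  · exact (mul_le_mul_of_nonneg_right hp (hx k)).trans (wall j)
  · exact (mul_le_mul_of_nonneg_right hq (hx k)).trans (wall l)

end algebra

section body
variable {a : Fin 4 → E3} {σ : Measure (E3 × E3)} {K : Set E3} {S : Fin 4 → ℝ}
  {c : Fin 4 → E3} {z : Fin 4 → Fin 4 → E3}

/-- **THE CORNER `k` OF A PLACED BODY, data of `face_KSM`.** `S' m = S (τ m.succ)`; `γ p` = level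
of the arc `p` per unit of `ρ p`; `Mx` = any upper bound of the load of the node `k`. -/
theorem GM_corner_body [IsFiniteMeasure σ]
    (h : CN K σ a c) (v : Viol K a S) (hz : CV a K z)
    (τ : Equiv.Perm (Fin 4)) {A' : ℝ} (hA' : 0 < A')
    {l : Fin 3 → Bool → Bool → E3 × E3 → ℝ} {dE : Fin 3 → ℝ}
    {ρ β : Fin 3 → ℝ} (hρ : ∀ p, 0 < ρ p)
    (hMρ : ∀ p k, k ≠ p → MA σ a l τ p k ≤ ρ p)
    {N : Fin 3 → Fin 3 → ℝ} (hNd : N = NM (fun i => a (τ i)) (fun i j => z (τ i) (τ j)))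
    {R : Fin 3 → ℝ} (hRd : R = RM (fun i => a (τ i)) (fun i j => z (τ i) (τ j)))
    {ζ ζp : Fin 3 → ℝ} (hζp : ∀ k, 0 < ζp k)
    {φ lam lamM : ℝ} (hφ0 : 0 < φ) (hl0 : 0 ≤ lam) (hl1 : lam ≤ lamM) (hlM1 : lamM ≤ 1 - φ)
    (hβ0 : ∀ p, 0 ≤ β p) (hβ1 : ∀ p, β p ≤ 1)
    (hK : ∀ p, β p * ρ p ≤ A' * Id (fun t => kap N (vv t) p))
    (hF : ∀ p, (1 - β p) * ρ p ≤ φ * (A' * Id (flP (PN N) p)))
    {γ r s : Fin 3 → ℝ} (hE : ∀ p, aE σ a l (τ 0) (τ p.succ) - dE p ≤ γ p * ρ p)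
    (hγ0 : ∀ p, 0 ≤ γ p) (hr0 : ∀ k, 0 ≤ r k) (hs0 : ∀ k, 0 ≤ s k)
    {s0 : ℝ} (hex : s0 - (ζ 0 * R 0 + ζ 1 * R 1 + ζ 2 * R 2) ≤
      r 0 * ζp 0 + r 1 * ζp 1 + r 2 * ζp 2)
    (hrγ : ∀ m, γ m ≤ (r 0 + r 1 + r 2) - r m)
    (hsγ : ∀ m, γ m + ((S (τ 1) + S (τ 2) + S (τ 3)) - S (τ m.succ)) ≤ (s 0 + s 1 + s 2) - s m)
    {k j n : Fin 3} (hkj : k ≠ j) (hkn : k ≠ n) (hjn : j ≠ n) (hsk : s k = 0) {e1 e2 e3 : ℝ}
    (he0 : 0 ≤ e1)
    {p q : ℝ} (hp : p ≤ N j k) (hq : q ≤ N n k)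
    (he2 : R j + S (τ j.succ) + N k j * S (τ k.succ) + r j ≤ e2) (he2' : s j ≤ e2)
    (he3 : R n + S (τ n.succ) + N k n * S (τ k.succ) + r n ≤ e3) (he3' : s n ≤ e3)
    (he1 : R k + S (τ k.succ) + r k ≤ e1 + p * (e2 - S (τ j.succ)) + q * (e3 - S (τ n.succ)))
    {t : ℝ × ℝ} (ht : t ∈ Sim) {Mx : ℝ}
    (hM : ∀ u, 0 ≤ u → u ≤ T3 t k → p * u ≤ T3 t j → q * u ≤ T3 t n → u ≤ Mx) :
    GM A' N ζ ζp lam (fun p t => φ * flP (PN N) p t) (fun p t => kap N (vv t) p) β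
        (MB σ a l τ) (fun p => aE σ a l (τ 0) (τ p.succ) - dE p) R (fun k => S (τ k.succ)) s0 t ≤
      -(T3 t 0 * S (τ 1) + T3 t 1 * S (τ 2) + T3 t 2 * S (τ 3))
      + (e1 * Mx + e2 * T3 t j + e3 * T3 t n) := by
  have h' := h.perm τ
  have v' := viol_perm v τ
  have hz' := hz.perm τ
  have hN : ∀ k m, 0 ≤ N k m := fun k m => by
    rw [hNd]
    exact NM_nonneg h' v' hz' k m
  have hd : ∀ k, N k k = 0 := fun k => by
    rw [hNd]
    exact NM_diag k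
  have hcol : ∀ m, nc N m ≤ 9 / 10 := fun m => by
    rw [hNd]
    exact nc_le h' v' hz' m
  have hc : (9 / 10 : ℝ) < 1 := by norm_num
  have hR : ∀ k, 0 ≤ R k := fun k => by
    rw [hRd]
    exact RM_nonneg h' v' hz' k
  have hF0 : ∀ p, 0 < Id (flP (PN N) p) := fun p => by
    have h1 := Pool.Agent.Helper73.MEI.SideP.flN_mass hN hd hc hcol p
    have h2 := Pool.Agent.Helper55.ApexP.PN_det_pos hN hd hc hcol
    have h3 := Pool.Agent.Helper73.MEI.SideP.mbN_ge hN p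
    refine lt_of_lt_of_le ?_ h1
    have h4 : 0 < Pool.Agent.Helper73.MEI.SideP.mbN N p := by linarith
    positivity
  have eI : ∀ p, Id (fun t => φ * flP (PN N) p t) = φ * Id (flP (PN N) p) := fun p =>
    Pool.Agent.Helper55.Mass.Id_const φ _
  have hlM : 0 ≤ lamM := hl0.trans hl1
  have hKp : ∀ p, 0 ≤ Id (fun t => kap N (vv t) p) := fun p => by
    have h1 := mul_nonneg (hβ0 p) (hρ p).le
    have h2 := h1.trans (hK p)
    exact nonneg_of_mul_nonneg_right h2 hA'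
  have sj : S (τ j.succ) ≤ e2 := by
    have := hR j
    have := hr0 j
    have := mul_nonneg (hN k j) (v.nn (τ k.succ))
    linarith
  have sn : S (τ n.succ) ≤ e3 := by
    have := hR n
    have := hr0 n
    have := mul_nonneg (hN k n) (v.nn (τ k.succ))
    linarith
  have m1 := mul_le_mul_of_nonneg_right hp (sub_nonneg.2 sj)
  have m2 := mul_le_mul_of_nonneg_right hq (sub_nonneg.2 sn)
  have key := GM_corner (A' := A') (N := N) (ζ := ζ) (ζp := ζp) (lam := lam) (lamM := lamM)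
    (hf := fun p t => φ * flP (PN N) p t) (κ := fun p t => kap N (vv t) p) (β := β) (ρ := ρ)
    (M := MB σ a l τ) (E := fun p => aE σ a l (τ 0) (τ p.succ) - dE p) (R := R)
    (S := fun k => S (τ k.succ)) (γ := γ) (r := r) (s := s) (s0 := s0)
    hN hd hc hcol hζp hl0 hl1
    (fun p t => mul_nonneg hφ0.le (flP_nonneg p t))
    (fun p t ht => by
      show φ * flP (PN N) p t = 0
      rw [flP_zero (by push Not at ht; exact ht) p, mul_zero])
    (fun t ht k => by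
      obtain ⟨p0, p1, p2⟩ := flP_pair (P := PN N) ht
      have hx := ht k
      have ha := mul_le_mul_of_nonneg_left
        (Pool.Agent.Helper55.ApexP.alP_zeta hζp ht k) hlM
      have ha2 := mul_le_mul_of_nonneg_right hlM1 (ht k)
      have hfk : (flP (PN N) 0 t + flP (PN N) 1 t + flP (PN N) 2 t) - flP (PN N) k t ≤
          mu (PN N) (vt t) k := by
        fin_cases k
        · simp only [Fin.zero_eta]
          linarith
        · simp only [Fin.mk_one]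
          linarith
        · simp only [Fin.reduceFinMk]
          linarith
      have hfk' := mul_le_mul_of_nonneg_left hfk hφ0.le
      linarith)
    (fun p t ht => kap_nonneg hN hc hcol (fun k => vv_nonneg ht k) p)
    (fun t ht k => by
      have hbv := fun k => vv_nonneg ht k
      fin_cases k
      · have := kap_add hN hc hcol hbv (j := 1) (l := 2) (k := 0) (by decide) (by decide)
          (by decide)
        simp only [Fin.zero_eta]
        linarith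
      · have := kap_add hN hc hcol hbv (j := 0) (l := 2) (k := 1) (by decide) (by decide)
          (by decide)
        simp only [Fin.mk_one]
        linarith
      · have := kap_add hN hc hcol hbv (j := 0) (l := 1) (k := 2) (by decide) (by decide)
          (by decide)
        simp only [Fin.reduceFinMk]
        linarith)
    hA'
    (fun p => by
      rw [eI]
      exact mul_pos hφ0 (hF0 p))
    hKp hβ0 hβ1
    (fun p => by
      rw [eI]
      have := hF p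
      linarith)
    hK (fun p k => MB_nonneg τ p k) (fun p => MB_diag τ p)
    (fun p k => by
      unfold MB
      split_ifs with hh
      · exact (hρ p).le
      · exact hMρ p k hh)
    hR (fun k => v.nn _) hE hγ0 hr0 hs0 hex hrγ hsγ hkj hkn hjn hsk he2 he2' he3 he3'
    (by
      show R k + S (τ k.succ) + r k ≤
        e1 + N j k * (e2 - S (τ j.succ)) + N n k * (e3 - S (τ n.succ))
      linarith) ht
  have hx := xx_corner hN hc hcol hp hq ht hM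
  have hx' := mul_le_mul_of_nonneg_left hx he0
  have e : T3 t 0 * S (τ (0 : Fin 3).succ) + T3 t 1 * S (τ (1 : Fin 3).succ)
      + T3 t 2 * S (τ (2 : Fin 3).succ) =
      T3 t 0 * S (τ 1) + T3 t 1 * S (τ 2) + T3 t 2 * S (τ 3) := rfl
  linarith

end body

end Pool.Agent.Helper58.MEI
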