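import Pool.Agent.Helper58.MEI.Price

/-!
# Project MEI (M2): family F (nodes in full, negative residual kept)

`yv_comb_le`: `Σ r_k y_k ≤ √(Helper75.MEI2.Qf r) |a_0 - q|`; `Yt_F`: any load `M` (not below the direction):
`L + m w + Σ pp(t_k - M_k) pp(w - S_k) - 2 √(Helper75.MEI2.Qf pp(M - t)) |a_0 - q| ≤ Yt`;
`Yt_F_nodes`: any weights `x ≥ 0` of the nodes and any further load; `Yt_F_body`: placed body.
-/

set_option autoImplicit false

namespace Pool.Agent.Helper58.MEI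

open Set Metric MeasureTheory Helper80.CW Helper82.CW Helper14.CW Helper93.MEI Helper82.M2
open Helper14.MEI2 Pool.Agent.Helper52.MEI Pool.Agent.Helper73.MEI Helper78.MEI Helper41.MEI
open Helper37.MEI
open Helper33.MEI (Wi Dl tx M3 mt mt_pos)
open Pool.Agent.Helper55.Sx (Sim)
open Pool.Agent.Helper55.Mass (LN LN_nonneg vv vv_nonneg vv_le Id)
open Pool.Agent.Helper31.SR
open Helper75.MEI2 (mu vt)
open scoped RealInnerProductSpace ENNReal

section gram
variable {a : Fin 4 → E3} {q : E3} {t : ℝ × ℝ}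

theorem inner_ee (g : Gram4 (al a)) {i j : Fin 4} (hi : i ≠ 0) (hj : j ≠ 0) :
    ⟪a 0 - a i, a 0 - a j⟫ = if i = j then (1 : ℝ) else 1 / 2 := by
  have e1 : a 0 - a i = al a 0 - al a i := by
    unfold al
    abel
  have e2 : a 0 - a j = al a 0 - al a j := by
    unfold al
    abel
  rw [e1, e2, inner_sub_left, inner_sub_right, inner_sub_right, g.diag 0, g.off 0 j hj.symm,
    g.off i 0 hi]
  split_ifs with h
  · rw [h, g.diag j]
    norm_num
  · rw [g.off i j h]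
    norm_num

/-- a combination of the contact variables -/
theorem yv_comb_le (g : Gram4 (al a)) (q : E3) (r : Fin 3 → ℝ) :
    r 0 * yv a 0 1 q + r 1 * yv a 0 2 q + r 2 * yv a 0 3 q ≤ √(Helper75.MEI2.Qf r) * ‖a 0 - q‖ := by
  have e : r 0 * yv a 0 1 q + r 1 * yv a 0 2 q + r 2 * yv a 0 3 q =
      ⟪r 0 • (a 0 - a 1) + r 1 • (a 0 - a 2) + r 2 • (a 0 - a 3), a 0 - q⟫ := by
    unfold yv
    rw [inner_add_left, inner_add_left, inner_smul_left, inner_smul_left, inner_smul_left,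
      real_inner_comm (a 0 - q), real_inner_comm (a 0 - q), real_inner_comm (a 0 - q)]
    simp
  have n : ‖r 0 • (a 0 - a 1) + r 1 • (a 0 - a 2) + r 2 • (a 0 - a 3)‖ ^ 2 = Helper75.MEI2.Qf r := by
    rw [← real_inner_self_eq_norm_sq]
    have i11 := inner_ee g (i := 1) (j := 1) (by decide) (by decide)
    have i12 := inner_ee g (i := 1) (j := 2) (by decide) (by decide)
    have i13 := inner_ee g (i := 1) (j := 3) (by decide) (by decide)
    have i21 := inner_ee g (i := 2) (j := 1) (by decide) (by decide)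
    have i22 := inner_ee g (i := 2) (j := 2) (by decide) (by decide)
    have i23 := inner_ee g (i := 2) (j := 3) (by decide) (by decide)
    have i31 := inner_ee g (i := 3) (j := 1) (by decide) (by decide)
    have i32 := inner_ee g (i := 3) (j := 2) (by decide) (by decide)
    have i33 := inner_ee g (i := 3) (j := 3) (by decide) (by decide)
    rw [if_pos rfl] at i11 i22 i33
    rw [if_neg (by decide)] at i12 i13 i21 i23 i31 i32
    simp only [inner_add_left, inner_add_right, inner_smul_left, inner_smul_right, i11, i12, i13,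
      i21, i22, i23, i31, i32, i33, conj_trivial]
    unfold Helper75.MEI2.Qf
    ring
  rw [e]
  refine (real_inner_le_norm _ _).trans (le_of_eq ?_)
  rw [← n, Real.sqrt_sq (norm_nonneg _)]

/-- **FAMILY F**: any load, the excess over the direction by its length -/
theorem Yt_F (g : Gram4 (al a)) (hq : Pl a q) {L m : ℝ} {M S : Fin 3 → ℝ} (hL : Load a q L m M)
    (h1 : Qv a 1 q ≤ S 0) (h2 : Qv a 2 q ≤ S 1) (h3 : Qv a 3 q ≤ S 2) :
    L + m * ‖a 0 - q‖ ^ 2
      + (pp (T3 t 0 - M 0) * pp (‖a 0 - q‖ ^ 2 - S 0)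
        + pp (T3 t 1 - M 1) * pp (‖a 0 - q‖ ^ 2 - S 1)
        + pp (T3 t 2 - M 2) * pp (‖a 0 - q‖ ^ 2 - S 2))
      - 2 * (√(Helper75.MEI2.Qf (fun k => pp (M k - T3 t k))) * ‖a 0 - q‖) ≤ Yt a t q := by
  have g1 := Qv_yv g (k := 1) (by decide) q
  have g2 := Qv_yv g (k := 2) (by decide) q
  have g3 := Qv_yv g (k := 3) (by decide) q
  have y1 := yv_nonneg hq (i := 0) (j := 1) (by decide)
  have y2 := yv_nonneg hq (i := 0) (j := 2) (by decide)
  have y3 := yv_nonneg hq (i := 0) (j := 3) (by decide)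
  have c1 : pp (‖a 0 - q‖ ^ 2 - S 0) ≤ 2 * yv a 0 1 q := max_le (by linarith) (by linarith)
  have c2 : pp (‖a 0 - q‖ ^ 2 - S 1) ≤ 2 * yv a 0 2 q := max_le (by linarith) (by linarith)
  have c3 : pp (‖a 0 - q‖ ^ 2 - S 2) ≤ 2 * yv a 0 3 q := max_le (by linarith) (by linarith)
  have k1 := mul_le_mul_of_nonneg_left c1 (pp_nonneg (T3 t 0 - M 0))
  have k2 := mul_le_mul_of_nonneg_left c2 (pp_nonneg (T3 t 1 - M 1))
  have k3 := mul_le_mul_of_nonneg_left c3 (pp_nonneg (T3 t 2 - M 2))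
  have key := yv_comb_le g q (fun k => pp (M k - T3 t k))
  have sp : ∀ x : ℝ, pp x - pp (-x) = x := by
    intro x
    unfold pp
    rcases le_total x 0 with h | h
    · rw [max_eq_right h, max_eq_left (by linarith)]
      ring
    · rw [max_eq_left h, max_eq_right (by linarith)]
      ring
  have s0 := sp (T3 t 0 - M 0)
  have s1 := sp (T3 t 1 - M 1)
  have s2 := sp (T3 t 2 - M 2)
  rw [neg_sub] at s0 s1 s2
  have e0 : T3 t 0 = M 0 + pp (T3 t 0 - M 0) - pp (M 0 - T3 t 0) := by linarith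
  have e1 : T3 t 1 = M 1 + pp (T3 t 1 - M 1) - pp (M 1 - T3 t 1) := by linarith
  have e2 : T3 t 2 = M 2 + pp (T3 t 2 - M 2) - pp (M 2 - T3 t 2) := by linarith
  have f0 : T3 t 0 * yv a 0 1 q = (M 0 + pp (T3 t 0 - M 0) - pp (M 0 - T3 t 0)) * yv a 0 1 q := by
    rw [← e0]
  have f1 : T3 t 1 * yv a 0 2 q = (M 1 + pp (T3 t 1 - M 1) - pp (M 1 - T3 t 1)) * yv a 0 2 q := by
    rw [← e1]
  have f2 : T3 t 2 * yv a 0 3 q = (M 2 + pp (T3 t 2 - M 2) - pp (M 2 - T3 t 2)) * yv a 0 3 q := by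
    rw [← e2]
  unfold Load at hL
  unfold Yt
  rw [f0, f1, f2]
  linarith

/-- the negative part of one coordinate only -/
theorem Qf_one {r : Fin 3 → ℝ} {k : Fin 3} (h : ∀ j, j ≠ k → r j = 0) : Helper75.MEI2.Qf r = r k ^ 2 := by
  unfold Helper75.MEI2.Qf
  fin_cases k
  · rw [h 1 (by decide), h 2 (by decide)]
    simp
  · rw [h 0 (by decide), h 2 (by decide)]
    simp
  · rw [h 0 (by decide), h 1 (by decide)]
    simp

/-- crude: the length is at most the sum -/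
theorem sqrt_Qf_le {r : Fin 3 → ℝ} (h : ∀ j, 0 ≤ r j) : √(Helper75.MEI2.Qf r) ≤ r 0 + r 1 + r 2 := by
  have h0 := h 0
  have h1 := h 1
  have h2 := h 2
  have a1 := mul_nonneg h0 h1
  have a2 := mul_nonneg h0 h2
  have a3 := mul_nonneg h1 h2
  apply Real.sqrt_le_iff.2
  refine ⟨by positivity, ?_⟩
  unfold Helper75.MEI2.Qf
  nlinarith

/-- **nodes with any weights `x ≥ 0`, a further load `(L, m, M)`** -/
theorem Yt_F_nodes (g : Gram4 (al a)) (hq : Pl a q) {N : Fin 3 → Fin 3 → ℝ}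
    {R μ S x : Fin 3 → ℝ} (hx : ∀ k, 0 ≤ x k)
    (hP : ∀ j, Load a q (R j) (μ j) (fun k => (if k = j then 1 else 0) + N k j))
    {L m : ℝ} {M : Fin 3 → ℝ} (hL : Load a q L m M)
    (h1 : Qv a 1 q ≤ S 0) (h2 : Qv a 2 q ≤ S 1) (h3 : Qv a 3 q ≤ S 2) :
    (x 0 * R 0 + x 1 * R 1 + x 2 * R 2 + L)
      + (x 0 * μ 0 + x 1 * μ 1 + x 2 * μ 2 + m) * ‖a 0 - q‖ ^ 2
      + (pp (T3 t 0 - (x 0 + LN N x 0 + M 0)) * pp (‖a 0 - q‖ ^ 2 - S 0)
        + pp (T3 t 1 - (x 1 + LN N x 1 + M 1)) * pp (‖a 0 - q‖ ^ 2 - S 1)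
        + pp (T3 t 2 - (x 2 + LN N x 2 + M 2)) * pp (‖a 0 - q‖ ^ 2 - S 2))
      - 2 * (√(Helper75.MEI2.Qf (fun k => pp (x k + LN N x k + M k - T3 t k))) * ‖a 0 - q‖) ≤ Yt a t q := by
  have l0 := Load.smul (hx 0) (hP 0)
  have l1 := Load.smul (hx 1) (hP 1)
  have l2 := Load.smul (hx 2) (hP 2)
  have l := Load.add (Load.add (Load.add l0 l1) l2) hL
  have hM : (fun k => x 0 * ((if k = (0 : Fin 3) then 1 else 0) + N k 0)
      + x 1 * ((if k = (1 : Fin 3) then 1 else 0) + N k 1)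
      + x 2 * ((if k = (2 : Fin 3) then 1 else 0) + N k 2) + M k) =
      fun k => x k + LN N x k + M k := by
    funext k
    unfold LN
    fin_cases k
    · simp
      ring
    · simp
      ring
    · simp
      ring
  have l' : Load a q (x 0 * R 0 + x 1 * R 1 + x 2 * R 2 + L)
      (x 0 * μ 0 + x 1 * μ 1 + x 2 * μ 2 + m) (fun k => x k + LN N x k + M k) := by
    rw [← hM]
    exact l
  exact Yt_F g hq l' h1 h2 h3

end gram

section body
variable {a : Fin 4 → E3} {σ : Measure (E3 × E3)} {K : Set E3} {S : Fin 4 → ℝ}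
  {c : Fin 4 → E3} {z : Fin 4 → Fin 4 → E3}

/-- **FAMILY F, placed body**: `x k = 0` outside the subset `A`; `(L, m, M)` = apex and arcs -/
theorem Yt_F_body (h : CN K σ a c) (v : Viol K a S) (hz : CV a K z) (τ : Equiv.Perm (Fin 4))
    {N : Fin 3 → Fin 3 → ℝ} (hNd : N = NM (fun i => a (τ i)) (fun i j => z (τ i) (τ j)))
    {R : Fin 3 → ℝ} (hRd : R = RM (fun i => a (τ i)) (fun i j => z (τ i) (τ j)))
    {x : Fin 3 → ℝ} (hx : ∀ k, 0 ≤ x k) {t : ℝ × ℝ} {q : E3} (hq : q ∈ K)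
    {L m : ℝ} {M : Fin 3 → ℝ} (hL : Load (fun i => a (τ i)) q L m M) :
    (x 0 * R 0 + x 1 * R 1 + x 2 * R 2 + L)
      + (x 0 * (1 / qM (fun i => a (τ i)) (fun i j => z (τ i) (τ j)) 0)
        + x 1 * (1 / qM (fun i => a (τ i)) (fun i j => z (τ i) (τ j)) 1)
        + x 2 * (1 / qM (fun i => a (τ i)) (fun i j => z (τ i) (τ j)) 2) + m)
        * ‖a (τ 0) - q‖ ^ 2
      + (pp (T3 t 0 - (x 0 + LN N x 0 + M 0)) * pp (‖a (τ 0) - q‖ ^ 2 - S (τ 1))
        + pp (T3 t 1 - (x 1 + LN N x 1 + M 1)) * pp (‖a (τ 0) - q‖ ^ 2 - S (τ 2))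
        + pp (T3 t 2 - (x 2 + LN N x 2 + M 2)) * pp (‖a (τ 0) - q‖ ^ 2 - S (τ 3)))
      - 2 * (√(Helper75.MEI2.Qf (fun k => pp (x k + LN N x k + M k - T3 t k))) * ‖a (τ 0) - q‖) ≤
      Yt (fun i => a (τ i)) t q := by
  have h' := h.perm τ
  have v' := viol_perm v τ
  have hz' := hz.perm τ
  have g := gram_of_dist h'.ha
  have hP : ∀ j, Load (fun i => a (τ i)) q (R j)
      (1 / qM (fun i => a (τ i)) (fun i j => z (τ i) (τ j)) j)
      (fun k => (if k = j then 1 else 0) + N k j) := fun j => by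
    rw [hRd, hNd]
    exact Pt_load hz' h' v' hq j
  exact Yt_F_nodes (a := fun i => a (τ i)) (S := fun k => S (τ k.succ)) (R := R)
    (μ := fun j => 1 / qM (fun i => a (τ i)) (fun i j => z (τ i) (τ j)) j) (N := N) (x := x)
    (L := L) (m := m) (M := M) g (h'.hp q hq) hx hP hL (v.le _ q hq) (v.le _ q hq)
    (v.le _ q hq)

end body

end Pool.Agent.Helper58.MEI
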