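import Pool.Agent.Helper58.MEI.EF

/-!
# Project MEI (M2): price lemmas for the value of the certificate

`PT N d k = d k + Σ_m N m k d m` (price of one unit of the node `k`).
`GM_price` (true moments of the arcs, feasibility only), `GM_priceR` (raised moments, cone and
strips), `GM_price_simple` (`GM t ≤ Σ (R k + r) T3 t k`), and the placed body forms
`GM_price_body`, `GM_priceR_body`, `GM_price_simple_body`.
-/

set_option autoImplicit false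

namespace Pool.Agent.Helper58.MEI

open Set Metric MeasureTheory Helper80.CW Helper82.CW Helper14.CW Helper93.MEI Helper82.M2
open Helper14.MEI2 Pool.Agent.Helper52.MEI Pool.Agent.Helper73.MEI Helper78.MEI Helper41.MEI
open Helper37.MEI
open Helper33.MEI (Wi Dl tx M3 mt mt_pos)
open Pool.Agent.Helper55.Sx (Sim)
open Pool.Agent.Helper55.Mass (LN LN_nonneg vv vv_nonneg vv_le Id)
open Pool.Agent.Helper55.Apex (nc vt_vv)
open Pool.Agent.Helper55.ApexP (PN alP alP_nonneg xx_mu)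
open Pool.Agent.Helper55.Fill (xx rr xx_nonneg xx_le xx_feas rr_nonneg)
open Pool.Agent.Helper73.MEI.SideP (flP flP_meas flP_nonneg flP_zero flP_pair)
open Pool.Agent.Helper96.Kap (kap kap_nonneg kap_meas kap_le_one kap_add)
open Pool.Agent.Helper31.SR
open Helper75.MEI2 (mu vt)
open scoped RealInnerProductSpace ENNReal

/-- price of one unit of the node `k` -/
def PT (N : Fin 3 → Fin 3 → ℝ) (d : Fin 3 → ℝ) (k : Fin 3) : ℝ :=
  d k + (N 0 k * d 0 + N 1 k * d 1 + N 2 k * d 2)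

theorem PT_dual (N : Fin 3 → Fin 3 → ℝ) (d x : Fin 3 → ℝ) :
    x 0 * PT N d 0 + x 1 * PT N d 1 + x 2 * PT N d 2 =
      d 0 * (x 0 + LN N x 0) + d 1 * (x 1 + LN N x 1) + d 2 * (x 2 + LN N x 2) := by
  unfold PT LN
  ring

theorem PT_mono {N N' : Fin 3 → Fin 3 → ℝ} (h : ∀ m k, N m k ≤ N' m k) {d : Fin 3 → ℝ}
    (hd : ∀ k, 0 ≤ d k) (k : Fin 3) : PT N d k ≤ PT N' d k := by
  have h0 := mul_le_mul_of_nonneg_right (h 0 k) (hd 0)
  have h1 := mul_le_mul_of_nonneg_right (h 1 k) (hd 1)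
  have h2 := mul_le_mul_of_nonneg_right (h 2 k) (hd 2)
  unfold PT
  linarith

section algebra
variable {N : Fin 3 → Fin 3 → ℝ} {ζ ζp : Fin 3 → ℝ} {hf κ : Fin 3 → ℝ × ℝ → ℝ}
  {β ρ : Fin 3 → ℝ} {A' lam lamM : ℝ} {M : Fin 3 → Fin 3 → ℝ}

/-- **PRICE LEMMA (true moments)** -/
theorem GM_price {t : ℝ × ℝ}
    (hf1 : ∀ k, lam * alP N ζp t * ζ k
      + ∑ l, ash hf (fun p => Id (hf p)) β A' l t * M l k ≤ xx N (vv t) k)
    (hf2 : ∀ k, ∑ l, ast κ (fun p => Id (κ p)) β A' l t * M l k ≤ rr N (vv t) k)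
    (ha : 0 ≤ lam * alP N ζp t)
    (hsh : ∀ l, 0 ≤ ash hf (fun p => Id (hf p)) β A' l t)
    (hst : ∀ l, 0 ≤ ast κ (fun p => Id (κ p)) β A' l t)
    {E R S η : Fin 3 → ℝ} {s0 : ℝ} (hη : ∀ k, 0 ≤ η k)
    (h1 : ∀ k, R k + PT N S k ≤ PT N η k)
    (h2 : s0 + (ζ 0 * PT N S 0 + ζ 1 * PT N S 1 + ζ 2 * PT N S 2) ≤
      ζ 0 * PT N η 0 + ζ 1 * PT N η 1 + ζ 2 * PT N η 2)
    (h3 : ∀ l, E l + (M l 0 * PT N S 0 + M l 1 * PT N S 1 + M l 2 * PT N S 2) ≤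
      M l 0 * PT N η 0 + M l 1 * PT N η 1 + M l 2 * PT N η 2)
    (h4 : ∀ l, E l + (M l 0 * S 0 + M l 1 * S 1 + M l 2 * S 2) ≤
      M l 0 * η 0 + M l 1 * η 1 + M l 2 * η 2) :
    GM A' N ζ ζp lam hf κ β M E R S s0 t ≤
      -(T3 t 0 * S 0 + T3 t 1 * S 1 + T3 t 2 * S 2)
      + (η 0 * T3 t 0 + η 1 * T3 t 1 + η 2 * T3 t 2) := by
  rw [GM_eq]
  have hP : ∀ k, S k + (N 0 k * S 0 + N 1 k * S 1 + N 2 k * S 2) = PT N S k := fun k => rfl
  rw [hP, hP, hP]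
  have q := PT_dual N η (xx N (vv t))
  have hT : ∀ j, T3 t j = xx N (vv t) j + LN N (xx N (vv t)) j + rr N (vv t) j := fun j => by
    rw [T3_vv]
    unfold rr
    ring
  have a1 : ∀ k, (xx N (vv t) k - (lam * alP N ζp t * ζ k
      + ∑ l, ash hf (fun p => Id (hf p)) β A' l t * M l k)) * (R k + PT N S k) ≤
      (xx N (vv t) k - (lam * alP N ζp t * ζ k
      + ∑ l, ash hf (fun p => Id (hf p)) β A' l t * M l k)) * PT N η k := fun k =>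
    mul_le_mul_of_nonneg_left (h1 k) (sub_nonneg.2 (hf1 k))
  have a2 := mul_le_mul_of_nonneg_left h2 ha
  have a3 := fun l => mul_le_mul_of_nonneg_left (h3 l) (hsh l)
  have a4 := fun l => mul_le_mul_of_nonneg_left (h4 l) (hst l)
  have a5 := fun k => mul_le_mul_of_nonneg_left (hf2 k) (hη k)
  have b0 := a1 0
  have b1 := a1 1
  have b2 := a1 2
  have c0 := a3 0
  have c1 := a3 1
  have c2 := a3 2
  have d0 := a4 0
  have d1 := a4 1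
  have d2 := a4 2
  have e0 := a5 0
  have e1 := a5 1
  have e2 := a5 2
  rw [Fin.sum_univ_three] at b0 b1 b2 e0 e1 e2
  rw [Fin.sum_univ_three, Fin.sum_univ_three]
  rw [hT 0, hT 1, hT 2]
  clear a1 a3 a4 a5 hf1 hf2 h1 h3 h4 hsh hst hT hP h2
  generalize PT N S 0 = ps0 at *
  generalize PT N S 1 = ps1 at *
  generalize PT N S 2 = ps2 at *
  generalize PT N η 0 = pe0 at *
  generalize PT N η 1 = pe1 at *
  generalize PT N η 2 = pe2 at *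
  linarith

/-- **arcs in the strips, general levels** -/
theorem strip_gen (hκ0 : ∀ l, ∀ t ∈ Sim, 0 ≤ κ l t)
    (hκr : ∀ t ∈ Sim, ∀ k, (κ 0 t + κ 1 t + κ 2 t) - κ k t ≤ rr N (vv t) k)
    (hA' : 0 < A') (hβ0 : ∀ p, 0 ≤ β p) (hKp : ∀ p, 0 ≤ Id (κ p))
    (hK : ∀ p, β p * ρ p ≤ A' * Id (κ p))
    {el γ s : Fin 3 → ℝ} (hel : ∀ l, el l ≤ γ l * ρ l)
    (hγ0 : ∀ l, 0 ≤ γ l) (hs0 : ∀ k, 0 ≤ s k)
    (hsγ : ∀ m, γ m ≤ (s 0 + s 1 + s 2) - s m)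
    {t : ℝ × ℝ} (ht : t ∈ Sim) :
    ∑ l, ast κ (fun p => Id (κ p)) β A' l t * el l
      ≤ s 0 * rr N (vv t) 0 + s 1 * rr N (vv t) 1 + s 2 * rr N (vv t) 2 := by
  have arc : ∀ l, ast κ (fun p => Id (κ p)) β A' l t * el l ≤ γ l * κ l t := by
    intro l
    have hk0 := hκ0 l t ht
    have ga : 0 ≤ ast κ (fun p => Id (κ p)) β A' l t := ast_nonneg hκ0 hA' hβ0 hKp l ht
    have g1 := mul_le_mul_of_nonneg_left (hel l) ga
    refine g1.trans ?_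
    rcases eq_or_lt_of_le (mul_nonneg hA'.le (hKp l)) with e | hpos
    · have z : ast κ (fun p => Id (κ p)) β A' l t = 0 := by
        unfold ast
        rw [← e]
        simp
      rw [z, zero_mul]
      exact mul_nonneg (hγ0 l) hk0
    · have g0 : 0 ≤ κ l t / (A' * Id (κ l)) := div_nonneg hk0 hpos.le
      have g2 := mul_le_mul_of_nonneg_left (hK l) (mul_nonneg (hγ0 l) g0)
      have g3 : κ l t / (A' * Id (κ l)) * (A' * Id (κ l)) = κ l t := div_mul_cancel₀ _ hpos.ne'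
      have e1 : ast κ (fun p => Id (κ p)) β A' l t * (γ l * ρ l) =
          γ l * (κ l t / (A' * Id (κ l))) * (β l * ρ l) := by
        unfold ast
        ring
      have e2 : γ l * (κ l t / (A' * Id (κ l))) * (A' * Id (κ l)) = γ l * κ l t := by
        rw [mul_assoc, g3]
      linarith
  have a0 := arc 0
  have a1 := arc 1
  have a2 := arc 2
  have m0 := mul_le_mul_of_nonneg_left (hκr t ht 0) (hs0 0)
  have m1 := mul_le_mul_of_nonneg_left (hκr t ht 1) (hs0 1)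
  have m2 := mul_le_mul_of_nonneg_left (hκr t ht 2) (hs0 2)
  have n0 := mul_le_mul_of_nonneg_right (hsγ 0) (hκ0 0 t ht)
  have n1 := mul_le_mul_of_nonneg_right (hsγ 1) (hκ0 1 t ht)
  have n2 := mul_le_mul_of_nonneg_right (hsγ 2) (hκ0 2 t ht)
  rw [Fin.sum_univ_three]
  linarith

/-- **PRICE LEMMA (raised moments)**: levels `γ` in the cone (`E l - M l · R ≤ γ l ρ l`) and
`γ'` in the strips (`E l + M l · S ≤ γ' l ρ l`), multipliers `r`, `s` -/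
theorem GM_priceR (hN : ∀ k m, 0 ≤ N k m) (hd : ∀ k, N k k = 0) {c : ℝ} (hc : c < 1)
    (hcol : ∀ m, nc N m ≤ c) (hζp : ∀ k, 0 < ζp k) (hl0 : 0 ≤ lam) (hl1 : lam ≤ lamM)
    (hf0 : ∀ l, ∀ t, 0 ≤ hf l t)
    (hfz : ∀ l, ∀ t, (¬ ∀ k, 0 ≤ mu (PN N) (vt t) k) → hf l t = 0)
    (hfx : ∀ t, (∀ k, 0 ≤ mu (PN N) (vt t) k) → ∀ k,
      lamM * alP N ζp t * ζp k + ((hf 0 t + hf 1 t + hf 2 t) - hf k t) ≤ mu (PN N) (vt t) k)
    (hκ0 : ∀ l, ∀ t ∈ Sim, 0 ≤ κ l t)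
    (hκr : ∀ t ∈ Sim, ∀ k, (κ 0 t + κ 1 t + κ 2 t) - κ k t ≤ rr N (vv t) k)
    (hA' : 0 < A') (hF0 : ∀ p, 0 < Id (hf p)) (hKp : ∀ p, 0 ≤ Id (κ p))
    (hβ0 : ∀ p, 0 ≤ β p) (hβ1 : ∀ p, β p ≤ 1)
    (hF : ∀ p, (1 - β p) * ρ p ≤ A' * Id (hf p)) (hK : ∀ p, β p * ρ p ≤ A' * Id (κ p))
    {E R S γ γ' r s η : Fin 3 → ℝ}
    (hE : ∀ l, E l - (M l 0 * R 0 + M l 1 * R 1 + M l 2 * R 2) ≤ γ l * ρ l)
    (hE' : ∀ l, E l + (M l 0 * S 0 + M l 1 * S 1 + M l 2 * S 2) ≤ γ' l * ρ l)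
    (hγ0 : ∀ l, 0 ≤ γ l) (hγ0' : ∀ l, 0 ≤ γ' l) (hr0 : ∀ k, 0 ≤ r k) (hs0 : ∀ k, 0 ≤ s k)
    {s0 : ℝ} (hex : s0 - (ζ 0 * R 0 + ζ 1 * R 1 + ζ 2 * R 2) ≤
      r 0 * ζp 0 + r 1 * ζp 1 + r 2 * ζp 2)
    (hrγ : ∀ m, γ m ≤ (r 0 + r 1 + r 2) - r m)
    (hsγ : ∀ m, γ' m ≤ (s 0 + s 1 + s 2) - s m)
    (hη : ∀ k, s k ≤ η k) (h1 : ∀ k, R k + PT N S k + r k ≤ PT N η k)
    {t : ℝ × ℝ} (ht : t ∈ Sim) :
    GM A' N ζ ζp lam hf κ β M E R S s0 t ≤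
      -(T3 t 0 * S 0 + T3 t 1 * S 1 + T3 t 2 * S 2)
      + (η 0 * T3 t 0 + η 1 * T3 t 1 + η 2 * T3 t 2) := by
  rw [GM_eq]
  have hP : ∀ k, S k + (N 0 k * S 0 + N 1 k * S 1 + N 2 k * S 2) = PT N S k := fun k => rfl
  rw [hP, hP, hP]
  have p2 := cone_part hN hd hc hcol hζp hl0 hl1 hf0 hfz hfx hA' hF0 hβ1 hF
    (el := fun l => E l - (M l 0 * R 0 + M l 1 * R 1 + M l 2 * R 2)) hE hγ0 hr0 hex hrγ ht
  have p3 := strip_gen (N := N) hκ0 hκr hA' hβ0 hKp hK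
    (el := fun l => E l + (M l 0 * S 0 + M l 1 * S 1 + M l 2 * S 2)) hE' hγ0' hs0 hsγ ht
  have hb : ∀ k, 0 ≤ vv t k := fun k => vv_nonneg ht k
  have hx := fun k => xx_nonneg hN hc hcol hb k
  have hr := fun k => rr_nonneg hN hc hcol hb k
  have q := PT_dual N η (xx N (vv t))
  have hT : ∀ j, T3 t j = xx N (vv t) j + LN N (xx N (vv t)) j + rr N (vv t) j := fun j => by
    rw [T3_vv]
    unfold rr
    ring
  have a1 := fun k => mul_le_mul_of_nonneg_left (h1 k) (hx k)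
  have a2 := fun k => mul_le_mul_of_nonneg_right (hη k) (hr k)
  have b0 := a1 0
  have b1 := a1 1
  have b2 := a1 2
  have c0 := a2 0
  have c1 := a2 1
  have c2 := a2 2
  rw [hT 0, hT 1, hT 2]
  generalize (∑ l, ash hf (fun p => Id (hf p)) β A' l t *
    (E l - (M l 0 * R 0 + M l 1 * R 1 + M l 2 * R 2))) = q1 at *
  generalize (∑ l, ast κ (fun p => Id (κ p)) β A' l t *
    (E l + (M l 0 * S 0 + M l 1 * S 1 + M l 2 * S 2))) = q2 at *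
  clear a1 a2 hT hP h1
  generalize PT N S 0 = ps0 at *
  generalize PT N S 1 = ps1 at *
  generalize PT N S 2 = ps2 at *
  generalize PT N η 0 = pe0 at *
  generalize PT N η 1 = pe1 at *
  generalize PT N η 2 = pe2 at *
  linarith

/-- **SIMPLE FORM**: `GM t ≤ Σ (R k + r) T3 t k`, `E l ≤ γ ρ l`, `γ ≤ 2 r` -/
theorem GM_price_simple (hN : ∀ k m, 0 ≤ N k m) (hd : ∀ k, N k k = 0) {c : ℝ} (hc : c < 1)
    (hcol : ∀ m, nc N m ≤ c) (hζp : ∀ k, 0 < ζp k) (hl0 : 0 ≤ lam) (hl1 : lam ≤ lamM)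
    (hf0 : ∀ l, ∀ t, 0 ≤ hf l t)
    (hfz : ∀ l, ∀ t, (¬ ∀ k, 0 ≤ mu (PN N) (vt t) k) → hf l t = 0)
    (hfx : ∀ t, (∀ k, 0 ≤ mu (PN N) (vt t) k) → ∀ k,
      lamM * alP N ζp t * ζp k + ((hf 0 t + hf 1 t + hf 2 t) - hf k t) ≤ mu (PN N) (vt t) k)
    (hκ0 : ∀ l, ∀ t ∈ Sim, 0 ≤ κ l t)
    (hκr : ∀ t ∈ Sim, ∀ k, (κ 0 t + κ 1 t + κ 2 t) - κ k t ≤ rr N (vv t) k)
    (hA' : 0 < A') (hF0 : ∀ p, 0 < Id (hf p)) (hKp : ∀ p, 0 ≤ Id (κ p))
    (hβ0 : ∀ p, 0 ≤ β p) (hβ1 : ∀ p, β p ≤ 1)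
    (hF : ∀ p, (1 - β p) * ρ p ≤ A' * Id (hf p)) (hK : ∀ p, β p * ρ p ≤ A' * Id (κ p))
    (hM0 : ∀ l k, 0 ≤ M l k) (hMl : ∀ l, M l l = 0) (hMρ : ∀ l k, M l k ≤ ρ l)
    {E R S : Fin 3 → ℝ} (hR : ∀ k, 0 ≤ R k) (hS : ∀ k, 0 ≤ S k) {r : ℝ} (hr0 : 0 ≤ r)
    (hE : ∀ l, E l ≤ 2 * r * ρ l)
    {s0 : ℝ} (hex : s0 - (ζ 0 * R 0 + ζ 1 * R 1 + ζ 2 * R 2) ≤ r * (ζp 0 + ζp 1 + ζp 2))
    {t : ℝ × ℝ} (ht : t ∈ Sim) :
    GM A' N ζ ζp lam hf κ β M E R S s0 t ≤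
      -(T3 t 0 * S 0 + T3 t 1 * S 1 + T3 t 2 * S 2)
      + ((S 0 + R 0 + r) * T3 t 0 + (S 1 + R 1 + r) * T3 t 1 + (S 2 + R 2 + r) * T3 t 2) := by
  refine GM_priceR (ρ := ρ) (γ := fun _ => 2 * r)
    (γ' := fun l => 2 * r + ((S 0 + S 1 + S 2) - S l)) (r := fun _ => r)
    (s := fun k => S k + r) (η := fun k => S k + R k + r) hN hd hc hcol hζp hl0 hl1 hf0 hfz hfx
    hκ0 hκr hA' hF0 hKp hβ0 hβ1 hF hK (fun l => ?_) (fun l => ?_) (fun _ => by positivity)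
    (fun l => ?_) (fun _ => hr0) (fun k => add_nonneg (hS k) hr0) (by linarith)
    (fun m => by linarith) (fun m => ?_) (fun k => ?_) (fun k => ?_) ht
  · have m0 := mul_nonneg (hM0 l 0) (hR 0)
    have m1 := mul_nonneg (hM0 l 1) (hR 1)
    have m2 := mul_nonneg (hM0 l 2) (hR 2)
    have := hE l
    linarith
  · have k0 := mul_le_mul_of_nonneg_right (hMρ l 0) (hS 0)
    have k1 := mul_le_mul_of_nonneg_right (hMρ l 1) (hS 1)
    have k2 := mul_le_mul_of_nonneg_right (hMρ l 2) (hS 2)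
    have h := hE l
    have hd := hMl l
    fin_cases l
    · simp only [Fin.zero_eta] at *
      rw [hd]
      linarith
    · simp only [Fin.mk_one] at *
      rw [hd]
      linarith
    · simp only [Fin.reduceFinMk] at *
      rw [hd]
      linarith
  · have h0 := hS 0
    have h1 := hS 1
    have h2 := hS 2
    fin_cases l
    · simp only [Fin.zero_eta]
      linarith
    · simp only [Fin.mk_one]
      linarith
    · simp only [Fin.reduceFinMk]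
      linarith
  · linarith
  · have := hR k
    linarith
  · have n0 := mul_nonneg (hN 0 k) (add_nonneg (hR 0) hr0)
    have n1 := mul_nonneg (hN 1 k) (add_nonneg (hR 1) hr0)
    have n2 := mul_nonneg (hN 2 k) (add_nonneg (hR 2) hr0)
    unfold PT
    simp only
    linarith

/-- the cone hypothesis for `φ flP` -/
theorem flP_fx (hζp : ∀ k, 0 < ζp k) {φ : ℝ} (hφ0 : 0 < φ) (hlM : 0 ≤ lamM)
    (hlM1 : lamM ≤ 1 - φ) (t : ℝ × ℝ) (ht : ∀ k, 0 ≤ mu (PN N) (vt t) k) (k : Fin 3) :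
    lamM * alP N ζp t * ζp k
      + ((φ * flP (PN N) 0 t + φ * flP (PN N) 1 t + φ * flP (PN N) 2 t)
        - φ * flP (PN N) k t) ≤ mu (PN N) (vt t) k := by
  obtain ⟨p0, p1, p2⟩ := flP_pair (P := PN N) ht
  have hx := ht k
  have ha := mul_le_mul_of_nonneg_left
    (Pool.Agent.Helper55.ApexP.alP_zeta hζp ht k) hlM
  have ha2 := mul_le_mul_of_nonneg_right hlM1 (ht k)
  have hfk : (flP (PN N) 0 t + flP (PN N) 1 t + flP (PN N) 2 t) - flP (PN N) k t ≤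
      mu (PN N) (vt t) k := by
    fin_cases k
    · simp only [Fin.zero_eta]
      linarith
    · simp only [Fin.mk_one]
      linarith
    · simp only [Fin.reduceFinMk]
      linarith
  have hfk' := mul_le_mul_of_nonneg_left hfk hφ0.le
  linarith

/-- the residual hypothesis for `kap` -/
theorem kap_r (hN : ∀ k m, 0 ≤ N k m) {c : ℝ} (hc : c < 1) (hcol : ∀ m, nc N m ≤ c)
    (t : ℝ × ℝ) (ht : t ∈ Sim) (k : Fin 3) :
    (kap N (vv t) 0 + kap N (vv t) 1 + kap N (vv t) 2) - kap N (vv t) k ≤ rr N (vv t) k := by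
  have hbv := fun k => vv_nonneg ht k
  fin_cases k
  · have := kap_add hN hc hcol hbv (j := 1) (l := 2) (k := 0) (by decide) (by decide)
      (by decide)
    simp only [Fin.zero_eta]
    linarith
  · have := kap_add hN hc hcol hbv (j := 0) (l := 2) (k := 1) (by decide) (by decide)
      (by decide)
    simp only [Fin.mk_one]
    linarith
  · have := kap_add hN hc hcol hbv (j := 0) (l := 1) (k := 2) (by decide) (by decide)
      (by decide)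
    simp only [Fin.reduceFinMk]
    linarith

end algebra

section body
variable {a : Fin 4 → E3} {σ : Measure (E3 × E3)} {K : Set E3} {S : Fin 4 → ℝ}
  {c : Fin 4 → E3} {z : Fin 4 → Fin 4 → E3}

/-- the columns of a placed body -/
theorem body_N (h : CN K σ a c) (v : Viol K a S) (hz : CV a K z) (τ : Equiv.Perm (Fin 4))
    {N : Fin 3 → Fin 3 → ℝ} (hNd : N = NM (fun i => a (τ i)) (fun i j => z (τ i) (τ j)))
    {R : Fin 3 → ℝ} (hRd : R = RM (fun i => a (τ i)) (fun i j => z (τ i) (τ j))) :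
    (∀ k m, 0 ≤ N k m) ∧ (∀ k, N k k = 0) ∧ (∀ m, nc N m ≤ 9 / 10) ∧ (∀ k, 0 ≤ R k) := by
  have h' := h.perm τ
  have v' := viol_perm v τ
  have hz' := hz.perm τ
  refine ⟨fun k m => ?_, fun k => ?_, fun m => ?_, fun k => ?_⟩
  · rw [hNd]
    exact NM_nonneg h' v' hz' k m
  · rw [hNd]
    exact NM_diag k
  · rw [hNd]
    exact nc_le h' v' hz' m
  · rw [hRd]
    exact RM_nonneg h' v' hz' k

/-- positive mass of `flP` -/
theorem flP_pos {N : Fin 3 → Fin 3 → ℝ} (hN : ∀ k m, 0 ≤ N k m) (hd : ∀ k, N k k = 0) {c : ℝ}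
    (hc : c < 1) (hcol : ∀ m, nc N m ≤ c) (p : Fin 3) : 0 < Id (flP (PN N) p) := by
  have h1 := Pool.Agent.Helper73.MEI.SideP.flN_mass hN hd hc hcol p
  have h2 := Pool.Agent.Helper55.ApexP.PN_det_pos hN hd hc hcol
  have h3 := Pool.Agent.Helper73.MEI.SideP.mbN_ge hN p
  refine lt_of_lt_of_le ?_ h1
  have h4 : 0 < Pool.Agent.Helper73.MEI.SideP.mbN N p := by linarith
  positivity

/-- **PRICE LEMMA, placed body, true moments.** -/
theorem GM_price_body [IsFiniteMeasure σ]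
    (h : CN K σ a c) (v : Viol K a S) (hz : CV a K z)
    (τ : Equiv.Perm (Fin 4)) {A' : ℝ} (hA' : 0 < A')
    {l : Fin 3 → Bool → Bool → E3 × E3 → ℝ} {dE : Fin 3 → ℝ}
    {ρ β : Fin 3 → ℝ} (hρ : ∀ p, 0 < ρ p)
    (hMρ : ∀ p k, k ≠ p → MA σ a l τ p k ≤ ρ p)
    {N : Fin 3 → Fin 3 → ℝ} (hNd : N = NM (fun i => a (τ i)) (fun i j => z (τ i) (τ j)))
    {R : Fin 3 → ℝ} (hRd : R = RM (fun i => a (τ i)) (fun i j => z (τ i) (τ j)))
    {ζ ζp : Fin 3 → ℝ} (hζp : ∀ k, 0 < ζp k) (hζ : ∀ k, ζ k ≤ ζp k)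
    {φ lam lamM : ℝ} (hφ0 : 0 < φ) (hl0 : 0 ≤ lam) (hl1 : lam ≤ lamM) (hlM1 : lamM ≤ 1 - φ)
    (hβ0 : ∀ p, 0 ≤ β p) (hβ1 : ∀ p, β p ≤ 1)
    (hK : ∀ p, β p * ρ p ≤ A' * Id (fun t => kap N (vv t) p))
    (hF : ∀ p, (1 - β p) * ρ p ≤ φ * (A' * Id (flP (PN N) p)))
    {η : Fin 3 → ℝ} {s0 : ℝ} (hη : ∀ k, 0 ≤ η k)
    (h1 : ∀ k, R k + PT N (fun k => S (τ k.succ)) k ≤ PT N η k)
    (h2 : s0 + (ζ 0 * PT N (fun k => S (τ k.succ)) 0 + ζ 1 * PT N (fun k => S (τ k.succ)) 1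
        + ζ 2 * PT N (fun k => S (τ k.succ)) 2) ≤
      ζ 0 * PT N η 0 + ζ 1 * PT N η 1 + ζ 2 * PT N η 2)
    (h3 : ∀ p, aE σ a l (τ 0) (τ p.succ) - dE p
        + (MB σ a l τ p 0 * PT N (fun k => S (τ k.succ)) 0
          + MB σ a l τ p 1 * PT N (fun k => S (τ k.succ)) 1
          + MB σ a l τ p 2 * PT N (fun k => S (τ k.succ)) 2) ≤
      MB σ a l τ p 0 * PT N η 0 + MB σ a l τ p 1 * PT N η 1 + MB σ a l τ p 2 * PT N η 2)
    (h4 : ∀ p, aE σ a l (τ 0) (τ p.succ) - dE p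
        + (MB σ a l τ p 0 * S (τ 1) + MB σ a l τ p 1 * S (τ 2) + MB σ a l τ p 2 * S (τ 3)) ≤
      MB σ a l τ p 0 * η 0 + MB σ a l τ p 1 * η 1 + MB σ a l τ p 2 * η 2)
    {t : ℝ × ℝ} (ht : t ∈ Sim) :
    GM A' N ζ ζp lam (fun p t => φ * flP (PN N) p t) (fun p t => kap N (vv t) p) β
        (MB σ a l τ) (fun p => aE σ a l (τ 0) (τ p.succ) - dE p) R (fun k => S (τ k.succ)) s0 t ≤
      -(T3 t 0 * S (τ 1) + T3 t 1 * S (τ 2) + T3 t 2 * S (τ 3))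
      + (η 0 * T3 t 0 + η 1 * T3 t 1 + η 2 * T3 t 2) := by
  obtain ⟨hN, hd, hcol, hR⟩ := body_N h v hz τ hNd hRd
  have hc : (9 / 10 : ℝ) < 1 := by norm_num
  have hF0 := flP_pos hN hd hc hcol
  have eI : ∀ p, Id (fun t => φ * flP (PN N) p t) = φ * Id (flP (PN N) p) := fun p =>
    Pool.Agent.Helper55.Mass.Id_const φ _
  have hlM : 0 ≤ lamM := hl0.trans hl1
  have hKp : ∀ p, 0 ≤ Id (fun t => kap N (vv t) p) := fun p => by
    have h1 := mul_nonneg (hβ0 p) (hρ p).le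
    have h2 := h1.trans (hK p)
    exact nonneg_of_mul_nonneg_right h2 hA'
  have hF1 : ∀ p, 0 < Id (fun t => φ * flP (PN N) p t) := fun p => by
    rw [eI]
    exact mul_pos hφ0 (hF0 p)
  have hF2 : ∀ p, (1 - β p) * ρ p ≤ A' * Id (fun t => φ * flP (PN N) p t) := fun p => by
    rw [eI]
    have := hF p
    linarith
  have hf0 : ∀ p, ∀ t, 0 ≤ φ * flP (PN N) p t := fun p t => mul_nonneg hφ0.le (flP_nonneg p t)
  have hκ0 : ∀ p, ∀ t ∈ Sim, 0 ≤ kap N (vv t) p := fun p t ht =>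
    kap_nonneg hN hc hcol (fun k => vv_nonneg ht k) p
  have hMB : ∀ p k, MB σ a l τ p k ≤ ρ p := fun p k => by
    unfold MB
    split_ifs with hh
    · exact (hρ p).le
    · exact hMρ p k hh
  have hfx := flP_fx (N := N) (ζp := ζp) (lamM := lam) hζp hφ0 hl0 (hl1.trans hlM1)
  have key := GM_price (A' := A') (N := N) (ζ := ζ) (ζp := ζp) (lam := lam)
    (hf := fun p t => φ * flP (PN N) p t) (κ := fun p t => kap N (vv t) p) (β := β)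
    (M := MB σ a l τ) (E := fun p => aE σ a l (τ 0) (τ p.succ) - dE p) (R := R)
    (S := fun k => S (τ k.succ)) (η := η) (s0 := s0) (t := t)
    (fun k => ash_feas4 hN hd hc hcol hζp hζ hf0
      (fun p t ht => by
        show φ * flP (PN N) p t = 0
        rw [flP_zero (by push Not at ht; exact ht) p, mul_zero])
      hfx hl0 hA' hF1 hβ1 hF2 (fun p => MB_diag τ p) hMB ht k)
    (fun k => ast_feas4 hκ0 (kap_r hN hc hcol) hA' hβ0 hKp hK (fun p => MB_diag τ p) hMB ht k)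
    (mul_nonneg hl0 (alP_nonneg hζp t))
    (fun p => ash_nonneg hf0 hA' hF1 hβ1 p t)
    (fun p => ast_nonneg hκ0 hA' hβ0 hKp p ht)
    hη h1 h2 h3 h4
  exact key

/-- **PRICE LEMMA, placed body, raised moments**, `N` in the box `[lo, hi]` -/
theorem GM_priceR_body [IsFiniteMeasure σ]
    (h : CN K σ a c) (v : Viol K a S) (hz : CV a K z)
    (τ : Equiv.Perm (Fin 4)) {A' : ℝ} (hA' : 0 < A')
    {l : Fin 3 → Bool → Bool → E3 × E3 → ℝ} {dE : Fin 3 → ℝ}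
    {ρ β : Fin 3 → ℝ} (hρ : ∀ p, 0 < ρ p)
    {N : Fin 3 → Fin 3 → ℝ} (hNd : N = NM (fun i => a (τ i)) (fun i j => z (τ i) (τ j)))
    {R : Fin 3 → ℝ} (hRd : R = RM (fun i => a (τ i)) (fun i j => z (τ i) (τ j)))
    {ζ ζp : Fin 3 → ℝ} (hζp : ∀ k, 0 < ζp k)
    {φ lam lamM : ℝ} (hφ0 : 0 < φ) (hl0 : 0 ≤ lam) (hl1 : lam ≤ lamM) (hlM1 : lamM ≤ 1 - φ)
    (hβ0 : ∀ p, 0 ≤ β p) (hβ1 : ∀ p, β p ≤ 1)
    (hK : ∀ p, β p * ρ p ≤ A' * Id (fun t => kap N (vv t) p))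
    (hF : ∀ p, (1 - β p) * ρ p ≤ φ * (A' * Id (flP (PN N) p)))
    {γ γ' r s η : Fin 3 → ℝ}
    (hE : ∀ p, aE σ a l (τ 0) (τ p.succ) - dE p
        - (MB σ a l τ p 0 * R 0 + MB σ a l τ p 1 * R 1 + MB σ a l τ p 2 * R 2) ≤ γ p * ρ p)
    (hE' : ∀ p, aE σ a l (τ 0) (τ p.succ) - dE p
        + (MB σ a l τ p 0 * S (τ 1) + MB σ a l τ p 1 * S (τ 2) + MB σ a l τ p 2 * S (τ 3)) ≤
      γ' p * ρ p)
    (hγ0 : ∀ p, 0 ≤ γ p) (hγ0' : ∀ p, 0 ≤ γ' p) (hr0 : ∀ k, 0 ≤ r k) (hs0 : ∀ k, 0 ≤ s k)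
    {s0 : ℝ} (hex : s0 - (ζ 0 * R 0 + ζ 1 * R 1 + ζ 2 * R 2) ≤
      r 0 * ζp 0 + r 1 * ζp 1 + r 2 * ζp 2)
    (hrγ : ∀ m, γ m ≤ (r 0 + r 1 + r 2) - r m)
    (hsγ : ∀ m, γ' m ≤ (s 0 + s 1 + s 2) - s m)
    (hη : ∀ k, s k ≤ η k)
    {lo hi : Fin 3 → Fin 3 → ℝ} (hlo : ∀ m k, lo m k ≤ N m k) (hhi : ∀ m k, N m k ≤ hi m k)
    (h1 : ∀ k, R k + PT hi (fun k => S (τ k.succ)) k + r k ≤ PT lo η k)
    {t : ℝ × ℝ} (ht : t ∈ Sim) :
    GM A' N ζ ζp lam (fun p t => φ * flP (PN N) p t) (fun p t => kap N (vv t) p) β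
        (MB σ a l τ) (fun p => aE σ a l (τ 0) (τ p.succ) - dE p) R (fun k => S (τ k.succ)) s0 t ≤
      -(T3 t 0 * S (τ 1) + T3 t 1 * S (τ 2) + T3 t 2 * S (τ 3))
      + (η 0 * T3 t 0 + η 1 * T3 t 1 + η 2 * T3 t 2) := by
  obtain ⟨hN, hd, hcol, hR⟩ := body_N h v hz τ hNd hRd
  have hc : (9 / 10 : ℝ) < 1 := by norm_num
  have hF0 := flP_pos hN hd hc hcol
  have eI : ∀ p, Id (fun t => φ * flP (PN N) p t) = φ * Id (flP (PN N) p) := fun p =>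
    Pool.Agent.Helper55.Mass.Id_const φ _
  have hlM : 0 ≤ lamM := hl0.trans hl1
  have hKp : ∀ p, 0 ≤ Id (fun t => kap N (vv t) p) := fun p => by
    have h1 := mul_nonneg (hβ0 p) (hρ p).le
    have h2 := h1.trans (hK p)
    exact nonneg_of_mul_nonneg_right h2 hA'
  exact GM_priceR (A' := A') (N := N) (ζ := ζ) (ζp := ζp) (lam := lam) (lamM := lamM)
    (hf := fun p t => φ * flP (PN N) p t) (κ := fun p t => kap N (vv t) p) (β := β) (ρ := ρ)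
    (M := MB σ a l τ) (E := fun p => aE σ a l (τ 0) (τ p.succ) - dE p) (R := R)
    (S := fun k => S (τ k.succ)) (γ := γ) (γ' := γ') (r := r) (s := s) (η := η) (s0 := s0)
    hN hd hc hcol hζp hl0 hl1
    (fun p t => mul_nonneg hφ0.le (flP_nonneg p t))
    (fun p t ht => by
      show φ * flP (PN N) p t = 0
      rw [flP_zero (by push Not at ht; exact ht) p, mul_zero])
    (flP_fx hζp hφ0 hlM hlM1)
    (fun p t ht => kap_nonneg hN hc hcol (fun k => vv_nonneg ht k) p)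
    (kap_r hN hc hcol) hA'
    (fun p => by
      rw [eI]
      exact mul_pos hφ0 (hF0 p))
    hKp hβ0 hβ1
    (fun p => by
      rw [eI]
      have := hF p
      linarith)
    hK hE hE' hγ0 hγ0' hr0 hs0 hex hrγ hsγ hη
    (fun k => by
      have p1 := PT_mono hlo (fun k => (hs0 k).trans (hη k)) k
      have p2 := PT_mono hhi (d := fun k => S (τ k.succ)) (fun k => v.nn _) k
      have p3 := h1 k
      linarith) ht

/-- **SIMPLE FORM, placed body**: `GM t ≤ Σ (R k + r) T3 t k` -/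
theorem GM_price_simple_body [IsFiniteMeasure σ]
    (h : CN K σ a c) (v : Viol K a S) (hz : CV a K z)
    (τ : Equiv.Perm (Fin 4)) {A' : ℝ} (hA' : 0 < A')
    {l : Fin 3 → Bool → Bool → E3 × E3 → ℝ} {dE : Fin 3 → ℝ}
    {ρ β : Fin 3 → ℝ} (hρ : ∀ p, 0 < ρ p)
    (hMρ : ∀ p k, k ≠ p → MA σ a l τ p k ≤ ρ p)
    {N : Fin 3 → Fin 3 → ℝ} (hNd : N = NM (fun i => a (τ i)) (fun i j => z (τ i) (τ j)))
    {R : Fin 3 → ℝ} (hRd : R = RM (fun i => a (τ i)) (fun i j => z (τ i) (τ j)))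
    {ζ ζp : Fin 3 → ℝ} (hζp : ∀ k, 0 < ζp k)
    {φ lam lamM : ℝ} (hφ0 : 0 < φ) (hl0 : 0 ≤ lam) (hl1 : lam ≤ lamM) (hlM1 : lamM ≤ 1 - φ)
    (hβ0 : ∀ p, 0 ≤ β p) (hβ1 : ∀ p, β p ≤ 1)
    (hK : ∀ p, β p * ρ p ≤ A' * Id (fun t => kap N (vv t) p))
    (hF : ∀ p, (1 - β p) * ρ p ≤ φ * (A' * Id (flP (PN N) p)))
    {r : ℝ} (hr0 : 0 ≤ r) (hE : ∀ p, aE σ a l (τ 0) (τ p.succ) - dE p ≤ 2 * r * ρ p)
    {s0 : ℝ} (hex : s0 - (ζ 0 * R 0 + ζ 1 * R 1 + ζ 2 * R 2) ≤ r * (ζp 0 + ζp 1 + ζp 2))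
    {t : ℝ × ℝ} (ht : t ∈ Sim) :
    GM A' N ζ ζp lam (fun p t => φ * flP (PN N) p t) (fun p t => kap N (vv t) p) β
        (MB σ a l τ) (fun p => aE σ a l (τ 0) (τ p.succ) - dE p) R (fun k => S (τ k.succ)) s0 t ≤
      -(T3 t 0 * S (τ 1) + T3 t 1 * S (τ 2) + T3 t 2 * S (τ 3))
      + ((S (τ 1) + R 0 + r) * T3 t 0 + (S (τ 2) + R 1 + r) * T3 t 1
        + (S (τ 3) + R 2 + r) * T3 t 2) := by
  obtain ⟨hN, hd, hcol, hR⟩ := body_N h v hz τ hNd hRd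
  have hc : (9 / 10 : ℝ) < 1 := by norm_num
  have hF0 := flP_pos hN hd hc hcol
  have eI : ∀ p, Id (fun t => φ * flP (PN N) p t) = φ * Id (flP (PN N) p) := fun p =>
    Pool.Agent.Helper55.Mass.Id_const φ _
  have hlM : 0 ≤ lamM := hl0.trans hl1
  have hKp : ∀ p, 0 ≤ Id (fun t => kap N (vv t) p) := fun p => by
    have h1 := mul_nonneg (hβ0 p) (hρ p).le
    have h2 := h1.trans (hK p)
    exact nonneg_of_mul_nonneg_right h2 hA'
  have key := GM_price_simple (A' := A') (N := N) (ζ := ζ) (ζp := ζp) (lam := lam) (lamM := lamM)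
    (hf := fun p t => φ * flP (PN N) p t) (κ := fun p t => kap N (vv t) p) (β := β) (ρ := ρ)
    (M := MB σ a l τ) (E := fun p => aE σ a l (τ 0) (τ p.succ) - dE p) (R := R)
    (S := fun k => S (τ k.succ)) (r := r) (s0 := s0)
    hN hd hc hcol hζp hl0 hl1
    (fun p t => mul_nonneg hφ0.le (flP_nonneg p t))
    (fun p t ht => by
      show φ * flP (PN N) p t = 0
      rw [flP_zero (by push Not at ht; exact ht) p, mul_zero])
    (flP_fx hζp hφ0 hlM hlM1)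
    (fun p t ht => kap_nonneg hN hc hcol (fun k => vv_nonneg ht k) p)
    (kap_r hN hc hcol) hA'
    (fun p => by
      rw [eI]
      exact mul_pos hφ0 (hF0 p))
    hKp hβ0 hβ1
    (fun p => by
      rw [eI]
      have := hF p
      linarith)
    hK (fun p k => MB_nonneg τ p k) (fun p => MB_diag τ p)
    (fun p k => by
      unfold MB
      split_ifs with hh
      · exact (hρ p).le
      · exact hMρ p k hh)
    hR (fun k => v.nn _) hr0 hE hex ht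
  exact key

end body

end Pool.Agent.Helper58.MEI
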