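import Pool.Agent.Helper92.MEI.R7d

/-!
# Project MEI (M2): rule R7, further certificates on an interval of `w`

A certificate `P + Q w + 2 μ (c0 - c1 w) √w ≤ Y` with `G ≤ P + Δ`:
`g_e ≤ (Q - m) e + 2 μ (c0 - c1 e) √e` at the end points, loss `(Δ - g_e) / m`.

* `r7_alt`: price of the negative part from the certificate itself (`-C1 ≤ P`);
* `r7_altS`: price of the negative part from the strips;
* `sq_lin`: `2 √w ≤ w / e0 + e0` (negative residual of family F becomes affine);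
* numbers of a cell: `Aii_num`, `Rg`, `r7_alt_cell`, `r7_altS_cell`.
-/

set_option autoImplicit false

namespace Pool.Agent.Helper58.MEI

open Helper78.MEI Helper93.MEI Helper92.MEI

/-- the function of a certificate -/
noncomputable def phq (m Q μ c0 c1 u : ℝ) : ℝ := (Q - m) * u + 2 * μ * ((c0 - c1 * u) * √u)

theorem phq_chord {m Q μ c0 c1 u w v : ℝ} (hμ : 0 ≤ μ) (h0 : 0 ≤ u) (h1 : u ≤ w) (h2 : w ≤ v)
    (hc0 : 0 ≤ c0) (hc1 : 0 ≤ c1) :
    (v - w) * phq m Q μ c0 c1 u + (w - u) * phq m Q μ c0 c1 v ≤ (v - u) * phq m Q μ c0 c1 w := by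
  have k := mul_le_mul_of_nonneg_left (cw_chord h0 h1 h2 hc0 hc1) (by linarith : 0 ≤ 2 * μ)
  unfold phq
  nlinarith

/-- **a further certificate, pointwise**, price of the negative part from itself -/
theorem r7_alt {A m G P Q Δ C1 w u v Y gu gv μ c0 c1 om : ℝ} (hA : 0 ≤ A) (hm : 0 < m)
    (hμ : 0 ≤ μ) (hc0 : 0 ≤ c0) (hc1 : 0 ≤ c1) (hu : 0 ≤ u) (huw : u ≤ w)
    (hwv : w ≤ v) (hv : v < 2)
    (hY : P + Q * w + 2 * μ * ((c0 - c1 * w) * √w) ≤ Y)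
    (hG : G ≤ P + Δ) (hP : -C1 ≤ P)
    (hgu : gu ≤ phq m Q μ c0 c1 u) (hgv : gv ≤ phq m Q μ c0 c1 v)
    (ku : Eii A m C1 Δ gu u om) (kv : Eii A m C1 Δ gv v om) :
    A * (G / m) - om ≤ ff A (Y / m - w) w := by
  have hw0 : 0 ≤ w := hu.trans huw
  have hv0 : 0 ≤ v := hw0.trans hwv
  have hXs : (P + phq m Q μ c0 c1 w) / m ≤ Y / m - w := by
    have e : Y / m - w = (Y - m * w) / m := by field_simp
    rw [e]
    apply div_le_div_of_nonneg_right _ hm.le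
    unfold phq
    linarith
  have hch := phq_chord (m := m) (Q := Q) hμ hu huw hwv hc0 hc1
  have hfch : (v - w) * gu + (w - u) * gv ≤ (v - u) * phq m Q μ c0 c1 w := by
    have k1 := mul_le_mul_of_nonneg_left hgu (show 0 ≤ v - w by linarith)
    have k2 := mul_le_mul_of_nonneg_left hgv (show 0 ≤ w - u by linarith)
    linarith
  have hXch : (v - w) * ((P + gu) / m) + (w - u) * ((P + gv) / m) ≤
      (v - u) * (Y / m - w) := by
    have k1 := mul_le_mul_of_nonneg_left hXs (show 0 ≤ v - u by linarith)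
    have e : (v - w) * ((P + gu) / m) + (w - u) * ((P + gv) / m) =
        ((v - w) * gu + (w - u) * gv + (v - u) * P) / m := by
      field_simp
      ring
    have e2 : (v - u) * ((P + phq m Q μ c0 c1 w) / m) =
        ((v - u) * phq m Q μ c0 c1 w + (v - u) * P) / m := by
      field_simp
      ring
    rw [e2] at k1
    rw [e]
    refine le_trans (div_le_div_of_nonneg_right ?_ hm.le) k1
    linarith
  unfold Eii at ku kv
  refine ff_conc (X1 := (P + gu) / m) (X2 := (P + gv) / m) hA huw hwv hv ?_ ?_ ?_ ?_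
  · linarith
  · intro e
    refine le_trans ?_ hXs
    apply div_le_div_of_nonneg_right _ hm.le
    rw [e]
    linarith
  · refine ff_of_num hA hu (by linarith) (n := pp ((C1 - gu) / m)) ?_ (pp_nonneg _) ?_
    · have h1 := le_pp ((C1 - gu) / m)
      have h2 : -((C1 - gu) / m) ≤ (P + gu) / m := by
        have e : -((C1 - gu) / m) = (-C1 + gu) / m := by ring
        rw [e]
        exact div_le_div_of_nonneg_right (by linarith) hm.le
      linarith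
    · have k1 : G / m ≤ (P + Δ) / m := div_le_div_of_nonneg_right hG hm.le
      have e : (P + Δ) / m = (P + gu) / m + (Δ - gu) / m := by ring
      rw [e] at k1
      have du : 0 < 1 - u / 2 := by linarith
      have k2 := mul_le_mul_of_nonneg_right (mul_le_mul_of_nonneg_left k1 hA) du.le
      linarith
  · refine ff_of_num hA hv0 hv (n := pp ((C1 - gv) / m)) ?_ (pp_nonneg _) ?_
    · have h1 := le_pp ((C1 - gv) / m)
      have h2 : -((C1 - gv) / m) ≤ (P + gv) / m := by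
        have e : -((C1 - gv) / m) = (-C1 + gv) / m := by ring
        rw [e]
        exact div_le_div_of_nonneg_right (by linarith) hm.le
      linarith
    · have k1 : G / m ≤ (P + Δ) / m := div_le_div_of_nonneg_right hG hm.le
      have e : (P + Δ) / m = (P + gv) / m + (Δ - gv) / m := by ring
      rw [e] at k1
      have dv : 0 < 1 - v / 2 := by linarith
      have k2 := mul_le_mul_of_nonneg_right (mul_le_mul_of_nonneg_left k1 hA) dv.le
      linarith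

/-- **a further certificate, pointwise**, price of the negative part from the strips -/
theorem r7_altS {A m G C E ow P Q Δ w u v Y gu gv fu fv μ μ' c0 c1 om : ℝ} (hA : 0 ≤ A)
    (hm : 0 < m) (hm1 : m ≤ 1) (hμ : 0 ≤ μ) (hμ' : 0 ≤ μ') (hc0 : 0 ≤ c0) (hc1 : 0 ≤ c1)
    (hu : 0 ≤ u) (huw : u ≤ w) (hwv : w ≤ v) (huv : u < v) (hv : v < 2)
    (hY : P + Q * w + 2 * μ' * ((c0 - c1 * w) * √w) ≤ Y) (hG : G ≤ P + Δ)
    (hS : -C + w + 2 * μ * ((c0 - c1 * w) * √w) ≤ Y) (hO : Y / m - w ≤ ow) (hE : G ≤ -C + E)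
    (hfu : fu ≤ phs m μ c0 c1 u) (hfv : fv ≤ phs m μ c0 c1 v)
    (hgu : gu ≤ phq m Q μ' c0 c1 u) (hgv : gv ≤ phq m Q μ' c0 c1 v)
    (hk : ∃ s, 0 ≤ s ∧
        A * (((Δ - gv) / m - (Δ - gu) / m) + (pp ((C - fu) / m) - pp ((C - fv) / m))) *
          (v - u) / 8 ≤ s ∧
        Ed A ((Δ - gu) / m) (pp ((C - fu) / m)) u s om ∧
        Ed A ((Δ - gv) / m) (pp ((C - fv) / m)) v s om) :
    A * (G / m) - om ≤ ff A (Y / m - w) w := by
  have hl : 0 < v - u := by linarith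
  have hch := phq_chord (m := m) (Q := Q) hμ' hu huw hwv hc0 hc1
  have hfch : (v - w) * gu + (w - u) * gv ≤ (v - u) * phq m Q μ' c0 c1 w := by
    have k1 := mul_le_mul_of_nonneg_left hgu (show 0 ≤ v - w by linarith)
    have k2 := mul_le_mul_of_nonneg_left hgv (show 0 ≤ w - u by linarith)
    linarith
  have eu : u - (u - (Δ - gu + (1 - m) * u)) / m = (Δ - gu) / m := by
    field_simp
    ring
  have ev : v - (v - (Δ - gv + (1 - m) * v)) / m = (Δ - gv) / m := by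
    field_simp
    ring
  have hL : G + w - ((v - w) * (Δ - gu + (1 - m) * u) + (w - u) * (Δ - gv + (1 - m) * v)) /
      (v - u) ≤ Y := by
    have e : ((v - w) * (Δ - gu + (1 - m) * u) + (w - u) * (Δ - gv + (1 - m) * v)) / (v - u) =
        Δ + (1 - m) * w - ((v - w) * gu + (w - u) * gv) / (v - u) := by
      have hl' : v - u ≠ 0 := hl.ne'
      field_simp
      ring
    have k : ((v - w) * gu + (w - u) * gv) / (v - u) ≤ phq m Q μ' c0 c1 w := by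
      rw [div_le_iff₀ hl]
      linarith
    rw [e]
    unfold phq at k
    linarith
  refine r7_int3 hA hm hm1 hμ hc0 hc1 hu huw hwv huv hv hL hS hO hE hfu hfv (Or.inl ?_)
  obtain ⟨s, s0, s1, s2, s3⟩ := hk
  refine ⟨s, s0, ?_, ?_, ?_⟩
  · rw [eu, ev]
    exact s1
  · rw [eu]
    exact s2
  · rw [ev]
    exact s3

/-- the negative residual becomes affine -/
theorem sq_lin {w e0 : ℝ} (hw : 0 ≤ w) (he : 0 < e0) : 2 * √w ≤ w / e0 + e0 := by
  have h1 := Real.sq_sqrt hw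
  have h2 := sq_nonneg (√w - e0)
  have e : w / e0 + e0 = (w + e0 ^ 2) / e0 := by field_simp
  rw [e, le_div_iff₀ he]
  nlinarith

/-! ### numbers for a cell of directions -/

theorem sgn_num {m x y m0 m1 : ℝ} (hm0 : 0 < m0) (hm : m0 ≤ m) (hm1 : m ≤ m1) (hx : x ≤ y) :
    x / m ≤ max (y / m0) (y / m1) := by
  have hmp := hm0.trans_le hm
  have k1 : x / m ≤ y / m := div_le_div_of_nonneg_right hx hmp.le
  rcases le_total 0 y with hy | hy
  · exact k1.trans ((div_le_div_of_nonneg_left hy hm0 hm).trans (le_max_left _ _))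
  · refine k1.trans (le_trans ?_ (le_max_right _ _))
    rw [div_le_div_iff₀ hmp (hmp.trans_le hm1)]
    nlinarith

theorem phq_num {m Q μ c0 c1 u m1 Q0 μ0 r : ℝ} (hm : m ≤ m1) (hQ : Q0 ≤ Q) (hμ : μ0 ≤ μ)
    (hμ0 : 0 ≤ μ0) (hu : 0 ≤ u) (hr : 0 ≤ r) (hr2 : r ^ 2 ≤ u) (hc : c1 * u ≤ c0) :
    (Q0 - m1) * u + 2 * μ0 * ((c0 - c1 * u) * r) ≤ phq m Q μ c0 c1 u := by
  have k1 := mul_le_mul_of_nonneg_right (show Q0 - m1 ≤ Q - m by linarith) hu
  have k2 : r ≤ √u := Real.le_sqrt_of_sq_le hr2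
  have k3 := mul_le_mul_of_nonneg_left k2 (sub_nonneg.2 hc)
  have k4 : 0 ≤ (c0 - c1 * u) * r := mul_nonneg (sub_nonneg.2 hc) hr
  have k5 : μ0 * ((c0 - c1 * u) * r) ≤ μ * ((c0 - c1 * u) * √u) :=
    mul_le_mul hμ k3 k4 (hμ0.trans hμ)
  unfold phq
  linarith

/-- one end point of a further certificate, numbers (negative cost allowed) -/
def Aii (A m0 m1 C1 Δ1 g w om : ℝ) : Prop :=
  0.127 * w + A * (pp (C1 - g) / m0) * (w / 2)
    + A * max ((Δ1 - g) / m0) ((Δ1 - g) / m1) * (1 - w / 2) ≤ om * (1 - w / 2)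

theorem Aii_num {A m C Δ g w om m0 m1 C1 Δ1 : ℝ} (hA : 0 ≤ A) (hm0 : 0 < m0) (hm : m0 ≤ m)
    (hm1 : m ≤ m1) (hC : C ≤ C1) (hE : Δ ≤ Δ1) (hw0 : 0 ≤ w) (hw : w < 2)
    (hk : Aii A m0 m1 C1 Δ1 g w om) : Eii A m C Δ g w om := by
  have d : 0 ≤ 1 - w / 2 := by linarith
  have h1 := pp_num (f := g) hm0 hm hC
  have h2 : (Δ - g) / m ≤ max ((Δ1 - g) / m0) ((Δ1 - g) / m1) :=
    sgn_num hm0 hm hm1 (by linarith)
  have k1 := mul_le_mul_of_nonneg_right (mul_le_mul_of_nonneg_left h1 hA)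
    (show 0 ≤ w / 2 by linarith)
  have k2 := mul_le_mul_of_nonneg_right (mul_le_mul_of_nonneg_left h2 hA) d
  unfold Aii at hk
  unfold Eii
  linarith

/-- **a further certificate on a cell** (`m0 ≤ m ≤ m1`), numbers `C1, Δ1, Q0, μ0`, end values
`g_e ≤ (Q0 - m1) e + 2 μ0 (c0 - c1 e) r_e`, `r_e² ≤ e` -/
theorem r7_alt_cell {A m G P Q Δ w u v Y gu gv μ c0 c1 om m0 m1 C C1 Δ1 Q0 μ0 ru rv : ℝ}
    (hA : 0 ≤ A) (hm0 : 0 < m0) (hm : m0 ≤ m) (hm1 : m ≤ m1)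
    (hC : C ≤ C1) (hΔ : Δ ≤ Δ1) (hQ : Q0 ≤ Q) (hμ0 : 0 ≤ μ0) (hμ : μ0 ≤ μ)
    (hc0 : 0 ≤ c0) (hc1 : 0 ≤ c1) (hcv : c1 * v ≤ c0) (hu : 0 ≤ u) (huw : u ≤ w)
    (hwv : w ≤ v) (hv : v < 2)
    (hY : P + Q * w + 2 * μ * ((c0 - c1 * w) * √w) ≤ Y)
    (hG : G ≤ P + Δ) (hP : -C ≤ P)
    (hru : 0 ≤ ru) (hru2 : ru ^ 2 ≤ u) (hrv : 0 ≤ rv) (hrv2 : rv ^ 2 ≤ v)
    (hgu : gu ≤ (Q0 - m1) * u + 2 * μ0 * ((c0 - c1 * u) * ru))
    (hgv : gv ≤ (Q0 - m1) * v + 2 * μ0 * ((c0 - c1 * v) * rv))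
    (ku : Aii A m0 m1 C1 Δ1 gu u om) (kv : Aii A m0 m1 C1 Δ1 gv v om) :
    A * (G / m) - om ≤ ff A (Y / m - w) w := by
  have hv0 : 0 ≤ v := hu.trans (huw.trans hwv)
  have hcu : c1 * u ≤ c0 := (mul_le_mul_of_nonneg_left (huw.trans hwv) hc1).trans hcv
  exact r7_alt hA (hm0.trans_le hm) (hμ0.trans hμ) hc0 hc1 hu huw hwv hv hY hG hP
    (hgu.trans (phq_num hm1 hQ hμ hμ0 hu hru hru2 hcu))
    (hgv.trans (phq_num hm1 hQ hμ hμ0 hv0 hrv hrv2 hcv))
    (Aii_num hA hm0 hm hm1 hC hΔ hu (by linarith) ku)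
    (Aii_num hA hm0 hm hm1 hC hΔ hv0 hv kv)

/-- the second order term of `r7_altS`, numbers -/
theorem sg_numS {A m C fu fv gu gv Δ u v m0 m1 C1 s : ℝ} (hA : 0 ≤ A) (huv : u ≤ v)
    (hm0 : 0 < m0) (hm : m0 ≤ m) (hm1 : m ≤ m1) (hC : C ≤ C1)
    (hs : A * (max ((gu - gv) / m0) ((gu - gv) / m1) +
      min (pp (C1 - fu) / m0) (pp (fv - fu) / m0)) * (v - u) / 8 ≤ s) :
    A * (((Δ - gv) / m - (Δ - gu) / m) + (pp ((C - fu) / m) - pp ((C - fv) / m))) *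
      (v - u) / 8 ≤ s := by
  have hd0 : 0 ≤ v - u := by linarith
  have hmp := hm0.trans_le hm
  have k1 : pp ((C - fu) / m) - pp ((C - fv) / m) ≤ pp (C1 - fu) / m0 := by
    have h1 := pp_num (f := fu) hm0 hm hC
    have h2 := pp_nonneg ((C - fv) / m)
    linarith
  have k2 : pp ((C - fu) / m) - pp ((C - fv) / m) ≤ pp (fv - fu) / m0 := by
    refine pp_lip ?_ (div_nonneg (pp_nonneg _) hm0.le)
    have e : (C - fu) / m - (C - fv) / m = (fv - fu) / m := by ring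
    rw [e]
    calc (fv - fu) / m ≤ pp (fv - fu) / m := div_le_div_of_nonneg_right (le_pp _) hmp.le
      _ ≤ pp (fv - fu) / m0 := div_le_div_of_nonneg_left (pp_nonneg _) hm0 hm
  have k3 : (Δ - gv) / m - (Δ - gu) / m ≤ max ((gu - gv) / m0) ((gu - gv) / m1) := by
    have e : (Δ - gv) / m - (Δ - gu) / m = (gu - gv) / m := by ring
    rw [e]
    exact sgn_num hm0 hm hm1 le_rfl
  have k4 := add_le_add k3 (le_min k1 k2)
  have k5 := mul_le_mul_of_nonneg_right (mul_le_mul_of_nonneg_left k4 hA) hd0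
  linarith

/-- **numbers of the version with the price from the strips** -/
def Rs (A m0 m1 C1 Δ1 gu gv fu fv u v om : ℝ) : Prop :=
  ∃ s, 0 ≤ s ∧
    A * (max ((gu - gv) / m0) ((gu - gv) / m1) +
      min (pp (C1 - fu) / m0) (pp (fv - fu) / m0)) * (v - u) / 8 ≤ s ∧
    Ed A (max ((Δ1 - gu) / m0) ((Δ1 - gu) / m1)) (pp (C1 - fu) / m0) u s om ∧
    Ed A (max ((Δ1 - gv) / m0) ((Δ1 - gv) / m1)) (pp (C1 - fv) / m0) v s om

theorem r7_altS_cell {A m G C E ow P Q Δ w u v Y gu gv fu fv μ μ' c0 c1 om m0 m1 C1 Δ1 : ℝ}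
    (hA : 0 ≤ A) (hm0 : 0 < m0) (hm : m0 ≤ m) (hm1 : m ≤ m1) (h1 : m ≤ 1)
    (hC : C ≤ C1) (hΔ : Δ ≤ Δ1) (hμ : 0 ≤ μ) (hμ' : 0 ≤ μ') (hc0 : 0 ≤ c0) (hc1 : 0 ≤ c1)
    (hu : 0 ≤ u) (huw : u ≤ w) (hwv : w ≤ v) (huv : u < v) (hv : v < 2)
    (hY : P + Q * w + 2 * μ' * ((c0 - c1 * w) * √w) ≤ Y) (hG : G ≤ P + Δ)
    (hS : -C + w + 2 * μ * ((c0 - c1 * w) * √w) ≤ Y) (hO : Y / m - w ≤ ow) (hE : G ≤ -C + E)
    (hfu : fu ≤ phs m μ c0 c1 u) (hfv : fv ≤ phs m μ c0 c1 v)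
    (hgu : gu ≤ phq m Q μ' c0 c1 u) (hgv : gv ≤ phq m Q μ' c0 c1 v)
    (hk : Rs A m0 m1 C1 Δ1 gu gv fu fv u v om) :
    A * (G / m) - om ≤ ff A (Y / m - w) w := by
  have hmp := hm0.trans_le hm
  have hv0 : 0 ≤ v := hu.trans (huw.trans hwv)
  obtain ⟨s, s0, s1, s2, s3⟩ := hk
  exact r7_altS hA hmp h1 hμ hμ' hc0 hc1 hu huw hwv huv hv hY hG hS hO hE hfu hfv hgu hgv
    ⟨s, s0, sg_numS hA huv.le hm0 hm hm1 hC s1,
      Ed_num hA hu (by linarith) (sgn_num hm0 hm hm1 (by linarith)) (pp_num hm0 hm hC) s2,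
      Ed_num hA hv0 hv (sgn_num hm0 hm hm1 (by linarith)) (pp_num hm0 hm hC) s3⟩

end Pool.Agent.Helper58.MEI
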