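import Pool.Agent.Helper60.MEI.R8

/-!
# Project MEI (M2), rule R8: one vertex of a leaf, all rows

`ein_sound`: the check of an end in natural numbers is the real inequality `vin`; `rwk_get`: the
list of rows; `vx_in` (rules 0, 1), `vx_s`, `vx_o` (out of range): convex combinations of the rows.
-/

set_option autoImplicit false

namespace Pool.Agent.Helper58.R8V

open Helper60.R7 (U U_pos F4)
open Helper60.R8

/-- **the check of an end** -/
theorem ein_sound {A m D X C E P e F la ps ow om : ℕ} (he : e < 2 * U) (hps : ps ≤ U)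
    (hk : ein A m D X C E P e F la ps ow om = true) :
    vin ((A : ℝ) / U) ((ps : ℝ) / U) ((la : ℝ) / U) ((ow : ℝ) / U)
      ((e : ℝ) / U / (1 - (e : ℝ) / U / 2)) ((e : ℝ) / U) ((m : ℝ) / U) ((C : ℝ) / (U : ℝ) ^ 2)
      ((D : ℝ) / (U : ℝ) ^ 2) ((X : ℝ) / (U : ℝ) ^ 2) ((E : ℝ) / (U : ℝ) ^ 2)
      ((P : ℝ) / (U : ℝ) ^ 4) ((F : ℝ) / (U : ℝ) ^ 4) ((om : ℝ) / U) := by
  unfold ein at hk
  rw [Nat.ble_eq] at hk
  simp only [Nat.add_eq, Nat.mul_eq, Nat.sub_eq] at hk
  obtain ⟨u, hu⟩ : ∃ u : ℝ, u = (U : ℝ) := ⟨_, rfl⟩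
  have hU : (0 : ℝ) < u := by
    rw [hu]
    exact_mod_cast U_pos
  have hk' : (U : ℝ) * ((254 * ((m : ℝ) * e)) * (((U : ℝ) * U) * (U * U)) +
      1000 * ((((2 * U - e : ℕ) : ℝ)) * (((ps : ℝ) * A) * (((m : ℝ) * U + D) * e) +
        U * ((A : ℝ) * ((((U - ps : ℕ) : ℝ)) * E + ps * X) + U * ((la : ℝ) * (C + m * ow)))) +
        (A : ℝ) * (P * e))) ≤
      1000 * ((((2 * U - e : ℕ) : ℝ)) * (((((U - ps : ℕ) : ℝ)) * A) * F +
        U * ((la : ℝ) * F + ((U : ℝ) * U) * (((ps : ℝ) * A) * e + ((U : ℝ) * U) * om)))) := by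
    exact_mod_cast hk
  rw [Nat.cast_sub he.le, Nat.cast_sub hps] at hk'
  push_cast at hk'
  have he' : (e : ℝ) < 2 * u := by
    rw [hu]
    exact_mod_cast he
  rw [← hu] at hk' ⊢
  obtain ⟨A', hA⟩ : ∃ z : ℝ, z = (A : ℝ) / u := ⟨_, rfl⟩
  obtain ⟨m', hm⟩ : ∃ z : ℝ, z = (m : ℝ) / u := ⟨_, rfl⟩
  obtain ⟨D', hD⟩ : ∃ z : ℝ, z = (D : ℝ) / u ^ 2 := ⟨_, rfl⟩
  obtain ⟨X', hX⟩ : ∃ z : ℝ, z = (X : ℝ) / u ^ 2 := ⟨_, rfl⟩
  obtain ⟨C', hC⟩ : ∃ z : ℝ, z = (C : ℝ) / u ^ 2 := ⟨_, rfl⟩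
  obtain ⟨E', hE⟩ : ∃ z : ℝ, z = (E : ℝ) / u ^ 2 := ⟨_, rfl⟩
  obtain ⟨P', hP⟩ : ∃ z : ℝ, z = (P : ℝ) / u ^ 4 := ⟨_, rfl⟩
  obtain ⟨F', hF⟩ : ∃ z : ℝ, z = (F : ℝ) / u ^ 4 := ⟨_, rfl⟩
  obtain ⟨x, hx⟩ : ∃ z : ℝ, z = (e : ℝ) / u := ⟨_, rfl⟩
  obtain ⟨l', hl⟩ : ∃ z : ℝ, z = (la : ℝ) / u := ⟨_, rfl⟩
  obtain ⟨p', hp⟩ : ∃ z : ℝ, z = (ps : ℝ) / u := ⟨_, rfl⟩
  obtain ⟨w', hw⟩ : ∃ z : ℝ, z = (ow : ℝ) / u := ⟨_, rfl⟩
  obtain ⟨o', ho⟩ : ∃ z : ℝ, z = (om : ℝ) / u := ⟨_, rfl⟩
  have eA : (A : ℝ) = A' * u := by rw [hA]; field_simp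
  have em : (m : ℝ) = m' * u := by rw [hm]; field_simp
  have eD : (D : ℝ) = D' * u ^ 2 := by rw [hD]; field_simp
  have eX : (X : ℝ) = X' * u ^ 2 := by rw [hX]; field_simp
  have eC : (C : ℝ) = C' * u ^ 2 := by rw [hC]; field_simp
  have eE : (E : ℝ) = E' * u ^ 2 := by rw [hE]; field_simp
  have eP : (P : ℝ) = P' * u ^ 4 := by rw [hP]; field_simp
  have eF : (F : ℝ) = F' * u ^ 4 := by rw [hF]; field_simp
  have ex : (e : ℝ) = x * u := by rw [hx]; field_simp
  have el : (la : ℝ) = l' * u := by rw [hl]; field_simp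
  have ep : (ps : ℝ) = p' * u := by rw [hp]; field_simp
  have ew : (ow : ℝ) = w' * u := by rw [hw]; field_simp
  have eo : (om : ℝ) = o' * u := by rw [ho]; field_simp
  rw [← hA, ← hm, ← hD, ← hX, ← hC, ← hE, ← hP, ← hF, ← hx, ← hl, ← hp, ← hw, ← ho]
  rw [eA, em, eD, eX, eC, eE, eP, eF, ex, el, ep, ew, eo] at hk'
  rw [ex] at he'
  have hx2 : 0 < 2 - x := by
    have : x * u < 2 * u := he'
    have := lt_of_mul_lt_mul_right this hU.le
    linarith
  have hx3 : 0 < 1 - x / 2 := by linarith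
  -- the polynomial inequality
  have key : 0.254 * (x * m') + (2 - x) * (p' * (A' * ((m' - 1 + D') * x + X')) +
      (1 - p') * (A' * (E' - F')) + l' * (C' + m' * w' - F')) + A' * P' * x ≤ o' * (2 - x) := by
    have hu7 : 0 < 1000 * u ^ 7 := by positivity
    refine le_of_mul_le_mul_left ?_ hu7
    refine le_of_sub_nonneg ?_
    have h0 := sub_nonneg.2 hk'
    refine le_trans h0 (le_of_eq ?_)
    ring
  have hka : x / (1 - x / 2) * (1 - x / 2) = x := div_mul_cancel₀ _ hx3.ne'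
  unfold vin
  refine le_of_mul_le_mul_right ?_ hx3
  obtain ⟨k, hkk⟩ : ∃ k, k = x / (1 - x / 2) := ⟨_, rfl⟩
  rw [← hkk] at hka ⊢
  have e1 : (0.127 * k * m' + p' * (A' * ((m' - 1 + D') * x + X')) + (1 - p') * (A' * (E' - F')) +
      A' * P' * (k / 2) + l' * (C' + m' * w' - F')) * (1 - x / 2) =
      (0.254 * (x * m') + (2 - x) * (p' * (A' * ((m' - 1 + D') * x + X')) +
      (1 - p') * (A' * (E' - F')) + l' * (C' + m' * w' - F')) + A' * P' * x) / 2 := by
    linear_combination (0.127 * m' + A' * P' / 2) * hka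
  rw [e1]
  linarith

/-- the rows of a vertex -/
theorem rwk_get {A m o x y : ℕ} {I : Iv} {Fu Fv : ℕ} :
    ∀ (rows : List Row) (Os : List ℕ), rwk A m o x y I Fu Fv rows Os = true →
    ∀ i < rows.length, one A m o I Fu Fv (af (rows.getD i zR).S x y)
      (af ((rows.getD i zR).ls.getD I.li zL).D x y) (af ((rows.getD i zR).ls.getD I.li zL).X x y)
      (af ((rows.getD i zR).es.getD I.ei z3) x y) (rows.getD i zR).s (Os.getD i 0) = true
  | [], _, _, i, hi => absurd hi (Nat.not_lt_zero i)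
  | _ :: _, [], hk, _, _ => by simp [rwk] at hk
  | R :: Rs, om :: Os, hk, i, hi => by
    rw [rwk, Bool.and_eq_true] at hk
    cases i with
    | zero => exact hk.1
    | succ i => exact rwk_get Rs Os hk.2 i (Nat.lt_of_succ_lt_succ hi)

/-- convex combination of the rows of a function, units `U⁻²` -/
noncomputable def sA (rows : List Row) (lam : ℕ → ℝ) (f : Row → P3) (x y : ℕ) : ℝ :=
  ∑ i ∈ Finset.range rows.length, lam i * ((af (f (rows.getD i zR)) x y : ℕ) / (U : ℝ) ^ 2)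

/-- convex combination of `s` -/
noncomputable def sS (rows : List Row) (lam : ℕ → ℝ) : ℝ :=
  ∑ i ∈ Finset.range rows.length, lam i * (((rows.getD i zR).s : ℕ) / (U : ℝ))

/-- the price of the negative part -/
noncomputable def sP (rows : List Row) (lam : ℕ → ℝ) (x y F : ℕ) : ℝ :=
  ∑ i ∈ Finset.range rows.length,
    lam i * ((Nat.sub (Nat.mul (af (rows.getD i zR).S x y) (Nat.mul U U)) F : ℕ) / (U : ℝ) ^ 4)

theorem sP_nonneg {rows : List Row} {lam : ℕ → ℝ} (h0 : ∀ i, 0 ≤ lam i) (x y F : ℕ) :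
    0 ≤ sP rows lam x y F :=
  Finset.sum_nonneg fun i _ => mul_nonneg (h0 i) (by positivity)

theorem sP_ge {rows : List Row} {lam : ℕ → ℝ} (h0 : ∀ i, 0 ≤ lam i)
    (h1 : ∑ i ∈ Finset.range rows.length, lam i = 1) (x y F : ℕ) :
    sA rows lam (fun R => R.S) x y - (F : ℝ) / (U : ℝ) ^ 4 ≤ sP rows lam x y F := by
  have hU : (0 : ℝ) < (U : ℝ) := by exact_mod_cast U_pos
  have e : (F : ℝ) / (U : ℝ) ^ 4 =
      ∑ i ∈ Finset.range rows.length, lam i * ((F : ℝ) / (U : ℝ) ^ 4) := by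
    rw [← Finset.sum_mul, h1, one_mul]
  rw [e]
  unfold sA sP
  rw [← Finset.sum_sub_distrib]
  refine Finset.sum_le_sum fun i _ => ?_
  rw [← mul_sub]
  refine mul_le_mul_of_nonneg_left ?_ (h0 i)
  obtain ⟨n, hn⟩ : ∃ n, n = af (rows.getD i zR).S x y := ⟨_, rfl⟩
  rw [← hn]
  have k : (n : ℝ) * (U * U) ≤ ((Nat.sub (Nat.mul n (Nat.mul U U)) F : ℕ) : ℝ) + F := by
    simp only [Nat.mul_eq, Nat.sub_eq]
    have : n * (U * U) ≤ n * (U * U) - F + F := le_tsub_add
    exact_mod_cast this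
  have e2 : (n : ℝ) / (U : ℝ) ^ 2 = (n : ℝ) * (U * U) / (U : ℝ) ^ 4 := by
    field_simp
  rw [e2, ← sub_div]
  exact div_le_div_of_nonneg_right (by linarith) (by positivity)

/-- convex combination of the rows of one end -/
theorem rows_vin {rows : List Row} {lam : ℕ → ℝ} (h0 : ∀ i, 0 ≤ lam i)
    (h1 : ∑ i ∈ Finset.range rows.length, lam i = 1) {A psi la ka e m f ow : ℝ}
    {C D X E P s om : ℕ → ℝ} {b : Bool}
    (h : ∀ i < rows.length,
      vin A psi la (if b then s i else ow) ka e m (C i) (D i) (X i) (E i) (P i) f (om i)) :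
    vin A psi la (if b then ∑ i ∈ Finset.range rows.length, lam i * s i else ow) ka e m
      (∑ i ∈ Finset.range rows.length, lam i * C i) (∑ i ∈ Finset.range rows.length, lam i * D i)
      (∑ i ∈ Finset.range rows.length, lam i * X i) (∑ i ∈ Finset.range rows.length, lam i * E i)
      (∑ i ∈ Finset.range rows.length, lam i * P i) f
      (∑ i ∈ Finset.range rows.length, lam i * om i) := by
  cases b with
  | true =>
    simp only [if_true] at h ⊢
    have k := comb6 (n := rows.length) h0 h1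
      (a0 := 0.127 * ka * m + psi * (A * ((m - 1) * e)) - (1 - psi) * (A * f) - la * f)
      (a1 := psi * A * e) (a2 := (1 - psi) * A) (a3 := A * (ka / 2)) (a4 := la) (a5 := la * m)
      (a6 := psi * A) (D := D) (E := E) (P := P) (C := C) (s := s) (X := X) (om := om)
      (fun i hi => by
        have := h i hi
        unfold vin at this
        linarith)
    unfold vin
    linarith
  | false =>
    simp only [Bool.false_eq_true, if_false] at h ⊢
    have k := comb6 (n := rows.length) h0 h1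
      (a0 := 0.127 * ka * m + psi * (A * ((m - 1) * e)) - (1 - psi) * (A * f) - la * f
        + la * (m * ow))
      (a1 := psi * A * e) (a2 := (1 - psi) * A) (a3 := A * (ka / 2)) (a4 := la) (a5 := 0)
      (a6 := psi * A) (D := D) (E := E) (P := P) (C := C) (s := fun _ => 0) (X := X) (om := om)
      (fun i hi => by
        have := h i hi
        unfold vin at this
        linarith)
    unfold vin
    linarith

section vertex
variable {rows : List Row} {lam : ℕ → ℝ} {A c0 c1 m o x y : ℕ} {I : Iv} {Os : List ℕ}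

/-- the strip values of a vertex increase -/
theorem vx_mono (hk : vxk rows A c0 c1 m o x y I Os = true) :
    ((F4 c0 c1 m (min x y) I.u I.ru : ℕ) : ℝ) / (U : ℝ) ^ 4 ≤
      ((F4 c0 c1 m (min x y) I.v I.rv : ℕ) : ℝ) / (U : ℝ) ^ 4 := by
  unfold vxk at hk
  rw [Bool.and_eq_true, Nat.ble_eq] at hk
  have hU : (0 : ℝ) < (U : ℝ) := by exact_mod_cast U_pos
  exact div_le_div_of_nonneg_right (by exact_mod_cast hk.1) (by positivity)

/-- **rules 0 and 1 at a vertex**, all rows -/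
theorem vx_in (h0 : ∀ i, 0 ≤ lam i) (h1 : ∑ i ∈ Finset.range rows.length, lam i = 1)
    (hv : I.v < 2 * U) (huv : I.u < I.v) (hps : I.ps ≤ U)
    (hk : vxk rows A c0 c1 m o x y I Os = true) (hty : I.ty = 0 ∨ I.ty = 1) :
    vin ((A : ℝ) / U) ((I.ps : ℝ) / U) ((I.la : ℝ) / U)
      (if I.ty = 0 then sS rows lam else (o : ℝ) / U)
      ((I.u : ℝ) / U / (1 - (I.u : ℝ) / U / 2)) ((I.u : ℝ) / U) ((m : ℝ) / U)
      (sA rows lam (fun R => R.S) x y) (sA rows lam (fun R => (R.ls.getD I.li zL).D) x y)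
      (sA rows lam (fun R => (R.ls.getD I.li zL).X) x y)
      (sA rows lam (fun R => R.es.getD I.ei z3) x y)
      (sP rows lam x y (F4 c0 c1 m (min x y) I.u I.ru))
      (((F4 c0 c1 m (min x y) I.u I.ru : ℕ) : ℝ) / (U : ℝ) ^ 4) (sO rows lam Os) ∧
    vin ((A : ℝ) / U) ((I.ps : ℝ) / U) ((I.la : ℝ) / U)
      (if I.ty = 0 then sS rows lam else (o : ℝ) / U)
      ((I.v : ℝ) / U / (1 - (I.v : ℝ) / U / 2)) ((I.v : ℝ) / U) ((m : ℝ) / U)
      (sA rows lam (fun R => R.S) x y) (sA rows lam (fun R => (R.ls.getD I.li zL).D) x y)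
      (sA rows lam (fun R => (R.ls.getD I.li zL).X) x y)
      (sA rows lam (fun R => R.es.getD I.ei z3) x y)
      (sP rows lam x y (F4 c0 c1 m (min x y) I.u I.ru))
      (((F4 c0 c1 m (min x y) I.v I.rv : ℕ) : ℝ) / (U : ℝ) ^ 4) (sO rows lam Os) := by
  unfold vxk at hk
  rw [Bool.and_eq_true] at hk
  have hr := rwk_get rows Os hk.2
  have hu2 : I.u < 2 * U := huv.trans hv
  have cast : ∀ i, ((Nat.sub (Nat.mul (af (rows.getD i zR).S x y) (Nat.mul U U))
      (F4 c0 c1 m (min x y) I.u I.ru) : ℕ) : ℝ) / (U : ℝ) ^ 4 =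
      ((Nat.sub (Nat.mul (af (rows.getD i zR).S x y) (Nat.mul U U))
      (F4 c0 c1 m (min x y) I.u I.ru) : ℕ) / (U : ℝ) ^ 4) := fun _ => rfl
  rcases hty with ht | ht
  · rw [if_pos ht]
    have g : ∀ i < rows.length,
        ein A m (af ((rows.getD i zR).ls.getD I.li zL).D x y)
          (af ((rows.getD i zR).ls.getD I.li zL).X x y) (af (rows.getD i zR).S x y)
          (af ((rows.getD i zR).es.getD I.ei z3) x y)
          (Nat.sub (Nat.mul (af (rows.getD i zR).S x y) (Nat.mul U U))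
            (F4 c0 c1 m (min x y) I.u I.ru)) I.u (F4 c0 c1 m (min x y) I.u I.ru) I.la I.ps
          (rows.getD i zR).s (Os.getD i 0) = true ∧
        ein A m (af ((rows.getD i zR).ls.getD I.li zL).D x y)
          (af ((rows.getD i zR).ls.getD I.li zL).X x y) (af (rows.getD i zR).S x y)
          (af ((rows.getD i zR).es.getD I.ei z3) x y)
          (Nat.sub (Nat.mul (af (rows.getD i zR).S x y) (Nat.mul U U))
            (F4 c0 c1 m (min x y) I.u I.ru)) I.v (F4 c0 c1 m (min x y) I.v I.rv) I.la I.ps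
          (rows.getD i zR).s (Os.getD i 0) = true := fun i hi => by
      have := hr i hi
      unfold one at this
      rw [ht] at this
      simpa only [Bool.and_eq_true] using this
    constructor
    · exact rows_vin (b := true) h0 h1 (ow := 0)
        (s := fun i => ((rows.getD i zR).s : ℕ) / (U : ℝ)) (fun i hi => by
          simp only [if_true]
          exact ein_sound hu2 hps (g i hi).1)
    · exact rows_vin (b := true) h0 h1 (ow := 0)
        (s := fun i => ((rows.getD i zR).s : ℕ) / (U : ℝ)) (fun i hi => by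
          simp only [if_true]
          exact ein_sound hv hps (g i hi).2)
  · rw [if_neg (by rw [ht]; decide)]
    have g : ∀ i < rows.length,
        ein A m (af ((rows.getD i zR).ls.getD I.li zL).D x y)
          (af ((rows.getD i zR).ls.getD I.li zL).X x y) (af (rows.getD i zR).S x y)
          (af ((rows.getD i zR).es.getD I.ei z3) x y)
          (Nat.sub (Nat.mul (af (rows.getD i zR).S x y) (Nat.mul U U))
            (F4 c0 c1 m (min x y) I.u I.ru)) I.u (F4 c0 c1 m (min x y) I.u I.ru) I.la I.ps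
          o (Os.getD i 0) = true ∧
        ein A m (af ((rows.getD i zR).ls.getD I.li zL).D x y)
          (af ((rows.getD i zR).ls.getD I.li zL).X x y) (af (rows.getD i zR).S x y)
          (af ((rows.getD i zR).es.getD I.ei z3) x y)
          (Nat.sub (Nat.mul (af (rows.getD i zR).S x y) (Nat.mul U U))
            (F4 c0 c1 m (min x y) I.u I.ru)) I.v (F4 c0 c1 m (min x y) I.v I.rv) I.la I.ps
          o (Os.getD i 0) = true := fun i hi => by
      have := hr i hi
      unfold one at this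
      rw [ht] at this
      simpa only [Bool.and_eq_true] using this
    constructor
    · exact rows_vin (b := false) h0 h1 (ow := (o : ℝ) / U) (s := fun _ => 0) (fun i hi => by
          simp only [Bool.false_eq_true, if_false]
          exact ein_sound hu2 hps (g i hi).1)
    · exact rows_vin (b := false) h0 h1 (ow := (o : ℝ) / U) (s := fun _ => 0) (fun i hi => by
          simp only [Bool.false_eq_true, if_false]
          exact ein_sound hv hps (g i hi).2)

/-- an out of range check of one row -/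
theorem out_row {C m w F : ℕ} (hk : Nat.ble (Nat.succ (Nat.mul (Nat.mul U U)
    (Nat.add C (Nat.mul m w)))) F = true) :
    (C : ℝ) / (U : ℝ) ^ 2 + (m : ℝ) / U * ((w : ℝ) / U) < (F : ℝ) / (U : ℝ) ^ 4 := by
  rw [Nat.ble_eq] at hk
  simp only [Nat.add_eq, Nat.mul_eq, Nat.succ_eq_add_one] at hk
  have hU : (0 : ℝ) < (U : ℝ) := by exact_mod_cast U_pos
  have hk' : ((U : ℝ) * U) * (C + m * w) < F := by
    have : U * U * (C + m * w) < F := hk
    exact_mod_cast this
  rw [lt_div_iff₀ (by positivity)]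
  have e : ((C : ℝ) / (U : ℝ) ^ 2 + (m : ℝ) / U * ((w : ℝ) / U)) * (U : ℝ) ^ 4 =
      ((U : ℝ) * U) * (C + m * w) := by
    field_simp
  rw [e]
  exact hk'

/-- a strict inequality for all rows -/
theorem rows_lt (h0 : ∀ i, 0 ≤ lam i) (h1 : ∑ i ∈ Finset.range rows.length, lam i = 1)
    {g : ℕ → ℝ} {B : ℝ} (h : ∀ i < rows.length, g i < B) :
    ∑ i ∈ Finset.range rows.length, lam i * g i < B := by
  obtain ⟨j, hj, hj0⟩ : ∃ j ∈ Finset.range rows.length, 0 < lam j := by
    by_contra hn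
    push Not at hn
    have : ∑ i ∈ Finset.range rows.length, lam i ≤ 0 := Finset.sum_nonpos hn
    linarith
  have e : B = ∑ i ∈ Finset.range rows.length, lam i * B := by
    rw [← Finset.sum_mul, h1, one_mul]
  rw [e]
  refine Finset.sum_lt_sum (fun i hi =>
    mul_le_mul_of_nonneg_left (h i (Finset.mem_range.1 hi)).le (h0 i)) ⟨j, hj, ?_⟩
  exact mul_lt_mul_of_pos_left (h j (Finset.mem_range.1 hj)) hj0

/-- **rule 2 at a vertex** (out of range with `s`) -/
theorem vx_s (h0 : ∀ i, 0 ≤ lam i) (h1 : ∑ i ∈ Finset.range rows.length, lam i = 1)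
    (hk : vxk rows A c0 c1 m o x y I Os = true) (hty : I.ty = 2) :
    sA rows lam (fun R => R.S) x y + (m : ℝ) / U * sS rows lam <
      ((F4 c0 c1 m (min x y) I.u I.ru : ℕ) : ℝ) / (U : ℝ) ^ 4 := by
  unfold vxk at hk
  rw [Bool.and_eq_true] at hk
  have hr := rwk_get rows Os hk.2
  have k := rows_lt h0 h1 (g := fun i => (af (rows.getD i zR).S x y : ℕ) / (U : ℝ) ^ 2
    + (m : ℝ) / U * (((rows.getD i zR).s : ℕ) / (U : ℝ))) (fun i hi => by
      have := hr i hi
      unfold one at this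
      rw [hty] at this
      exact out_row this)
  refine lt_of_le_of_lt (le_of_eq ?_) k
  unfold sA sS
  rw [Finset.mul_sum, ← Finset.sum_add_distrib]
  exact Finset.sum_congr rfl fun i _ => by ring

/-- **rule 3 at a vertex** (out of range with the own value) -/
theorem vx_o (h0 : ∀ i, 0 ≤ lam i) (h1 : ∑ i ∈ Finset.range rows.length, lam i = 1)
    (hk : vxk rows A c0 c1 m o x y I Os = true) (hty : 3 ≤ I.ty) :
    sA rows lam (fun R => R.S) x y + (m : ℝ) / U * ((o : ℝ) / U) <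
      ((F4 c0 c1 m (min x y) I.u I.ru : ℕ) : ℝ) / (U : ℝ) ^ 4 := by
  unfold vxk at hk
  rw [Bool.and_eq_true] at hk
  have hr := rwk_get rows Os hk.2
  obtain ⟨n, hn⟩ : ∃ n, I.ty = n + 3 := ⟨I.ty - 3, by omega⟩
  have k := rows_lt h0 h1 (g := fun i => (af (rows.getD i zR).S x y : ℕ) / (U : ℝ) ^ 2
    + (m : ℝ) / U * ((o : ℝ) / U)) (fun i hi => by
      have := hr i hi
      unfold one at this
      rw [hn] at this
      exact out_row this)
  refine lt_of_le_of_lt (le_of_eq ?_) k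
  unfold sA
  simp only [mul_add, Finset.sum_add_distrib]
  rw [← Finset.sum_mul, h1, one_mul]

end vertex

end Pool.Agent.Helper58.R8V
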