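import Pool.Agent.Helper58.MEI.FF

/-!
# Project MEI (M2): sub-certificates of `GM`

Weights `x` (nodes), `z` (apex), `h` (arcs with leaks), `s` (arcs of the residual):
`VB v vz vh vs x z h s = Σ x v + z vz + Σ h vh + Σ s vs`.
`sub_cert`: every choice of weights inside the filling is a certificate
`-Σ T3 S + VB (E values) + (1 - VB (D values)) w ≤ Yt`; `GM_parts`, `DM_parts`: `GM`, `DM` in this
form; `price_full`: price lemma for any values; body forms `cert_N`, `cert_Z`, `cert_NZ`.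
-/

set_option autoImplicit false

namespace Pool.Agent.Helper58.MEI

open Set Metric MeasureTheory Helper80.CW Helper82.CW Helper14.CW Helper93.MEI Helper82.M2
open Helper14.MEI2 Pool.Agent.Helper52.MEI Pool.Agent.Helper73.MEI Helper78.MEI Helper41.MEI
open Helper37.MEI
open Helper33.MEI (Wi Dl tx M3 mt mt_pos)
open Pool.Agent.Helper55.Sx (Sim)
open Pool.Agent.Helper55.Mass (LN LN_nonneg vv vv_nonneg vv_le Id)
open Pool.Agent.Helper55.Apex (nc vt_vv)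
open Pool.Agent.Helper55.ApexP (PN alP alP_nonneg xx_mu)
open Pool.Agent.Helper55.Fill (xx rr xx_nonneg xx_le xx_feas rr_nonneg)
open Pool.Agent.Helper73.MEI.SideP (flP flP_meas flP_nonneg flP_zero flP_pair)
open Pool.Agent.Helper96.Kap (kap kap_nonneg kap_meas kap_le_one kap_add)
open Pool.Agent.Helper31.SR
open Helper75.MEI2 (mu vt)
open scoped RealInnerProductSpace ENNReal

/-- total value of the weights -/
def VB (v : Fin 3 → ℝ) (vz : ℝ) (vh vs : Fin 3 → ℝ) (x : Fin 3 → ℝ) (z : ℝ) (h s : Fin 3 → ℝ) :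
    ℝ :=
  (x 0 * v 0 + x 1 * v 1 + x 2 * v 2) + z * vz + (h 0 * vh 0 + h 1 * vh 1 + h 2 * vh 2)
    + (s 0 * vs 0 + s 1 * vs 1 + s 2 * vs 2)

/-- three terms -/
def D3 (f g : Fin 3 → ℝ) : ℝ := f 0 * g 0 + f 1 * g 1 + f 2 * g 2

/-- **every choice of weights inside the filling is a certificate** -/
theorem sub_cert {a : Fin 4 → E3} {q : E3} {t : ℝ × ℝ} (g : Gram4 (al a)) (hq : Pl a q)
    {N M : Fin 3 → Fin 3 → ℝ} (hN : ∀ k m, 0 ≤ N k m) {R μ S ζ E sm : Fin 3 → ℝ} {s0 μx : ℝ}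
    (hP : ∀ j, Load a q (R j) (μ j) (fun k => (if k = j then 1 else 0) + N k j))
    (hZ : Load a q s0 μx (fun k => ζ k + LN N ζ k))
    (hA : ∀ l, Load a q (E l) (sm l) (M l)) (hM0 : ∀ l k, 0 ≤ M l k)
    {x h s : Fin 3 → ℝ} {z : ℝ} (hx : ∀ k, 0 ≤ x k) (hz : 0 ≤ z) (hh : ∀ l, 0 ≤ h l)
    (hs : ∀ l, 0 ≤ s l) {X r : Fin 3 → ℝ}
    (hX : ∀ k, x k + (z * ζ k + (h 0 * M 0 k + h 1 * M 1 k + h 2 * M 2 k)) ≤ X k)
    (hr : ∀ k, s 0 * M 0 k + s 1 * M 1 k + s 2 * M 2 k ≤ r k)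
    (hT : ∀ k, X k + LN N X k + r k ≤ T3 t k)
    (h1 : Qv a 1 q ≤ S 0) (h2 : Qv a 2 q ≤ S 1) (h3 : Qv a 3 q ≤ S 2) :
    -(T3 t 0 * S 0 + T3 t 1 * S 1 + T3 t 2 * S 2)
      + VB (fun k => R k + PT N S k) (s0 + D3 ζ (PT N S)) (fun l => E l + D3 (M l) (PT N S))
          (fun l => E l + D3 (M l) S) x z h s
      + (1 - VB (fun k => 1 + nc N k - μ k) (D3 ζ (fun k => 1 + nc N k) - μx)
          (fun l => D3 (M l) (fun k => 1 + nc N k) - sm l)
          (fun l => (M l 0 + M l 1 + M l 2) - sm l) x z h s) * ‖a 0 - q‖ ^ 2 ≤ Yt a t q := by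
  have l0 := Load.smul (hx 0) (hP 0)
  have l1 := Load.smul (hx 1) (hP 1)
  have l2 := Load.smul (hx 2) (hP 2)
  have lz := Load.smul hz hZ
  -- arcs with leaks: the columns are enlarged
  have hA' : ∀ l, Load a q (E l) (sm l) (fun k => M l k + LN N (M l) k) := fun l =>
    load_mono hq (hA l) fun k => by
      have := LN_nonneg hN (hM0 l) k
      linarith
  have a0 := Load.smul (hh 0) (hA' 0)
  have a1 := Load.smul (hh 1) (hA' 1)
  have a2 := Load.smul (hh 2) (hA' 2)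
  have b0 := Load.smul (hs 0) (hA 0)
  have b1 := Load.smul (hs 1) (hA 1)
  have b2 := Load.smul (hs 2) (hA 2)
  have key := Load.add (Load.add (Load.add (Load.add (Load.add (Load.add (Load.add (Load.add
    (Load.add l0 l1) l2) lz) a0) a1) a2) b0) b1) b2
  -- the columns are below the direction
  have hle : ∀ k, x k + (z * ζ k + (h 0 * M 0 k + h 1 * M 1 k + h 2 * M 2 k))
      + LN N (fun k => x k + (z * ζ k + (h 0 * M 0 k + h 1 * M 1 k + h 2 * M 2 k))) k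
      + (s 0 * M 0 k + s 1 * M 1 k + s 2 * M 2 k) ≤ T3 t k := fun k => by
    have h4 := hX k
    have h5 := hr k
    have h6 := hT k
    have h7 : LN N (fun k => x k + (z * ζ k + (h 0 * M 0 k + h 1 * M 1 k + h 2 * M 2 k))) k ≤
        LN N X k := by
      have n0 := mul_le_mul_of_nonneg_left (hX 0) (hN k 0)
      have n1 := mul_le_mul_of_nonneg_left (hX 1) (hN k 1)
      have n2 := mul_le_mul_of_nonneg_left (hX 2) (hN k 2)
      unfold LN
      linarith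
    linarith
  have key2 := Yt_load_caps (t := t) (S := S) g key (fun k => by
    refine le_trans (le_of_eq ?_) (hle k)
    unfold LN
    fin_cases k
    · simp
      ring
    · simp
      ring
    · simp
      ring) h1 h2 h3
  refine le_trans (le_of_eq ?_) key2
  unfold VB D3 PT nc LN
  simp
  ring

/-- `GM` as the value of its weights -/
theorem GM_parts (A' : ℝ) (N : Fin 3 → Fin 3 → ℝ) (ζ ζp : Fin 3 → ℝ) (lam : ℝ)
    (hf κ : Fin 3 → ℝ × ℝ → ℝ) (β : Fin 3 → ℝ) (M : Fin 3 → Fin 3 → ℝ) (E R S : Fin 3 → ℝ)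
    (s0 : ℝ) (t : ℝ × ℝ) {z : ℝ} {h s : Fin 3 → ℝ} (hz : z = lam * alP N ζp t)
    (hh : h = fun l => ash hf (fun p => Id (hf p)) β A' l t)
    (hs : s = fun l => ast κ (fun p => Id (κ p)) β A' l t) :
    GM A' N ζ ζp lam hf κ β M E R S s0 t =
      -(T3 t 0 * S 0 + T3 t 1 * S 1 + T3 t 2 * S 2)
      + VB (fun k => R k + PT N S k) (s0 + D3 ζ (PT N S)) (fun l => E l + D3 (M l) (PT N S))
          (fun l => E l + D3 (M l) S)
          (fun k => xx N (vv t) k - (z * ζ k + (h 0 * M 0 k + h 1 * M 1 k + h 2 * M 2 k)))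
          z h s := by
  rw [GM_eq, hz, hh, hs]
  unfold VB D3 PT
  simp only [Fin.sum_univ_three]
  ring

/-- `DM` as the value of its weights -/
theorem DM_parts (A' : ℝ) (N : Fin 3 → Fin 3 → ℝ) (ζ ζp : Fin 3 → ℝ) (lam : ℝ)
    (hf κ : Fin 3 → ℝ × ℝ → ℝ) (β : Fin 3 → ℝ) (M : Fin 3 → Fin 3 → ℝ) (μ sm : Fin 3 → ℝ)
    (t : ℝ × ℝ) {z : ℝ} {h s : Fin 3 → ℝ} (hz : z = lam * alP N ζp t)
    (hh : h = fun l => ash hf (fun p => Id (hf p)) β A' l t)
    (hs : s = fun l => ast κ (fun p => Id (κ p)) β A' l t) :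
    DM A' N ζ ζp lam hf κ β M μ sm t =
      VB (fun k => 1 + nc N k - μ k) (D3 ζ (fun k => 1 + nc N k) - 1)
          (fun l => D3 (M l) (fun k => 1 + nc N k) - sm l)
          (fun l => (M l 0 + M l 1 + M l 2) - sm l)
          (fun k => xx N (vv t) k - (z * ζ k + (h 0 * M 0 k + h 1 * M 1 k + h 2 * M 2 k)))
          z h s := by
  rw [DM_eq, hz, hh, hs]
  unfold VB D3
  simp only [Fin.sum_univ_three]
  ring

/-- **price lemma for any values** of the weights of a filling `X`, residual `r` -/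
theorem price_full {N M : Fin 3 → Fin 3 → ℝ} {ζ x h s X r T η : Fin 3 → ℝ} {z : ℝ}
    (hz : 0 ≤ z) (hh : ∀ l, 0 ≤ h l) (hs : ∀ l, 0 ≤ s l) (hx : ∀ k, 0 ≤ x k)
    (hN : ∀ k m, 0 ≤ N k m)
    (hX : ∀ k, x k + (z * ζ k + (h 0 * M 0 k + h 1 * M 1 k + h 2 * M 2 k)) ≤ X k)
    (hr : ∀ k, s 0 * M 0 k + s 1 * M 1 k + s 2 * M 2 k ≤ r k)
    (hT : ∀ k, X k + LN N X k + r k ≤ T k) (hη : ∀ k, 0 ≤ η k)
    {v vh vs : Fin 3 → ℝ} {vz : ℝ} (h1 : ∀ k, v k ≤ PT N η k) (h2 : vz ≤ D3 ζ (PT N η))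
    (h3 : ∀ l, vh l ≤ D3 (M l) (PT N η)) (h4 : ∀ l, vs l ≤ D3 (M l) η) :
    VB v vz vh vs x z h s ≤ D3 η T := by
  have hP : ∀ k, 0 ≤ PT N η k := fun k => by
    have n0 := mul_nonneg (hN 0 k) (hη 0)
    have n1 := mul_nonneg (hN 1 k) (hη 1)
    have n2 := mul_nonneg (hN 2 k) (hη 2)
    have := hη k
    unfold PT
    linarith
  have a1 := fun k => mul_le_mul_of_nonneg_left (h1 k) (hx k)
  have a2 := mul_le_mul_of_nonneg_left h2 hz
  have a3 := fun l => mul_le_mul_of_nonneg_left (h3 l) (hh l)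
  have a4 := fun l => mul_le_mul_of_nonneg_left (h4 l) (hs l)
  have a5 := fun k => mul_le_mul_of_nonneg_right (hX k) (hP k)
  have a6 := fun k => mul_le_mul_of_nonneg_left (hr k) (hη k)
  have a7 := fun k => mul_le_mul_of_nonneg_left (hT k) (hη k)
  have q := PT_dual N η X
  have b10 := a1 0
  have b11 := a1 1
  have b12 := a1 2
  have b30 := a3 0
  have b31 := a3 1
  have b32 := a3 2
  have b40 := a4 0
  have b41 := a4 1
  have b42 := a4 2
  have b50 := a5 0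
  have b51 := a5 1
  have b52 := a5 2
  have b60 := a6 0
  have b61 := a6 1
  have b62 := a6 2
  have b70 := a7 0
  have b71 := a7 1
  have b72 := a7 2
  clear a1 a3 a4 a5 a6 a7 h1 h2 h3 h4 hX hr hT hP
  unfold D3 at a2 b30 b31 b32 b40 b41 b42 ⊢
  unfold VB
  generalize PT N η 0 = p0 at *
  generalize PT N η 1 = p1 at *
  generalize PT N η 2 = p2 at *
  linarith

section body
variable {a : Fin 4 → E3} {σ : Measure (E3 × E3)} {K : Set E3} {S : Fin 4 → ℝ}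
  {c : Fin 4 → E3} {z : Fin 4 → Fin 4 → E3}

/-- **any weights inside the filling, placed body, data of `face_KSM`** (`δ`, `dE`, `dm`: third
moments as in `face_instM`; `X = xx`) -/
theorem sub_body [IsFiniteMeasure σ]
    (h : CN K σ a c) (v : Viol K a S) (hz : CV a K z)
    (τ : Equiv.Perm (Fin 4))
    {l : Fin 3 → Bool → Bool → E3 × E3 → ℝ} (hl : Lok a l)
    {δ dE dm : Fin 3 → ℝ} (hδ : ∀ p, MA σ a l τ p p ≤ δ p) (hdE : ∀ p, 0 ≤ dE p)
    (hdm : ∀ p, 0 ≤ dm p) (hdd : ∀ p, δ p ^ 2 ≤ dE p * dm p)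
    {x0 : E3} (hx0 : x0 ∈ K)
    {N : Fin 3 → Fin 3 → ℝ} (hNd : N = NM (fun i => a (τ i)) (fun i j => z (τ i) (τ j)))
    {R : Fin 3 → ℝ} (hRd : R = RM (fun i => a (τ i)) (fun i j => z (τ i) (τ j)))
    {ζ : Fin 3 → ℝ} (hb : ∀ k, b3 (fun i => a (τ i)) x0 k ≤ ζ k + LN N ζ k)
    {x w s : Fin 3 → ℝ} {y : ℝ} (hx : ∀ k, 0 ≤ x k) (hy : 0 ≤ y) (hw : ∀ p, 0 ≤ w p)
    (hs : ∀ p, 0 ≤ s p) {t : ℝ × ℝ}
    (hX : ∀ k, x k + (y * ζ k + (w 0 * MB σ a l τ 0 k + w 1 * MB σ a l τ 1 k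
      + w 2 * MB σ a l τ 2 k)) ≤ xx N (vv t) k)
    (hr : ∀ k, s 0 * MB σ a l τ 0 k + s 1 * MB σ a l τ 1 k + s 2 * MB σ a l τ 2 k ≤
      rr N (vv t) k) {q : E3} (hq : q ∈ K) :
    -(T3 t 0 * S (τ 1) + T3 t 1 * S (τ 2) + T3 t 2 * S (τ 3))
      + VB (fun k => R k + PT N (fun k => S (τ k.succ)) k)
          (Qv a (τ 0) x0 + D3 ζ (PT N (fun k => S (τ k.succ))))
          (fun p => aE σ a l (τ 0) (τ p.succ) - dE p
            + D3 (MB σ a l τ p) (PT N (fun k => S (τ k.succ))))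
          (fun p => aE σ a l (τ 0) (τ p.succ) - dE p
            + D3 (MB σ a l τ p) (fun k => S (τ k.succ))) x y w s
      + (1 - VB (fun k => 1 + nc N k
            - 1 / qM (fun i => a (τ i)) (fun i j => z (τ i) (τ j)) k)
          (D3 ζ (fun k => 1 + nc N k) - 1)
          (fun p => D3 (MB σ a l τ p) (fun k => 1 + nc N k)
            - (am σ a l (τ 0) (τ p.succ) - dm p))
          (fun p => (MB σ a l τ p 0 + MB σ a l τ p 1 + MB σ a l τ p 2)
            - (am σ a l (τ 0) (τ p.succ) - dm p)) x y w s) * ‖a (τ 0) - q‖ ^ 2 ≤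
      Yt (fun i => a (τ i)) t q := by
  have h' := h.perm τ
  have v' := viol_perm v τ
  have hz' := hz.perm τ
  have g := gram_of_dist h'.ha
  obtain ⟨hN, hd, hcol, hR⟩ := body_N h v hz τ hNd hRd
  have hP : ∀ j, Load (fun i => a (τ i)) q (R j)
      (1 / qM (fun i => a (τ i)) (fun i j => z (τ i) (τ j)) j)
      (fun k => (if k = j then 1 else 0) + N k j) := fun j => by
    rw [hRd, hNd]
    exact Pt_load hz' h' v' hq j
  have hZ : Load (fun i => a (τ i)) q (Qv a (τ 0) x0) 1 (fun k => ζ k + LN N ζ k) :=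
    apex_load g (h.hd x0 hx0 q hq) (h'.hp q hq) hb
  have hA : ∀ p, Load (fun i => a (τ i)) q (aE σ a l (τ 0) (τ p.succ) - dE p)
      (am σ a l (τ 0) (τ p.succ) - dm p) (MB σ a l τ p) := fun p => by
    have h0 := arc_load h.ha hl h.cpt h.pm.mem h.hp h.hd τ hq p
    exact load_drop2 h'.ha (h'.hp q hq) h0 (hδ p) ((MA_nonneg τ p p).trans (hδ p))
      (hdE p) (hdm p) (hdd p)
  exact sub_cert (a := fun i => a (τ i)) (S := fun k => S (τ k.succ)) (N := N)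
    (M := MB σ a l τ) (R := R)
    (μ := fun k => 1 / qM (fun i => a (τ i)) (fun i j => z (τ i) (τ j)) k) (ζ := ζ)
    (E := fun p => aE σ a l (τ 0) (τ p.succ) - dE p)
    (sm := fun p => am σ a l (τ 0) (τ p.succ) - dm p) (s0 := Qv a (τ 0) x0) (μx := 1)
    (x := x) (h := w) (s := s) (z := y) (X := xx N (vv t)) (r := rr N (vv t)) (t := t)
    g (h'.hp q hq) hN hP hZ hA (fun p k => MB_nonneg τ p k) hx hy hw hs hX hr
    (fun k => by
      rw [T3_vv]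
      unfold rr
      linarith)
    (v.le _ q hq) (v.le _ q hq) (v.le _ q hq)

/-- the weights of `GM` are inside the filling (data of `face_KSM`) -/
theorem weights_ok [IsFiniteMeasure σ]
    (h : CN K σ a c) (v : Viol K a S) (hz : CV a K z)
    (τ : Equiv.Perm (Fin 4)) {A' : ℝ} (hA' : 0 < A')
    {l : Fin 3 → Bool → Bool → E3 × E3 → ℝ}
    {ρ β : Fin 3 → ℝ} (hρ : ∀ p, 0 < ρ p)
    (hMρ : ∀ p k, k ≠ p → MA σ a l τ p k ≤ ρ p)
    {N : Fin 3 → Fin 3 → ℝ} (hNd : N = NM (fun i => a (τ i)) (fun i j => z (τ i) (τ j)))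
    {ζ ζp : Fin 3 → ℝ} (hζp : ∀ k, 0 < ζp k) (hζ : ∀ k, ζ k ≤ ζp k)
    {φ lam : ℝ} (hφ0 : 0 < φ) (hl0 : 0 ≤ lam) (hl1 : lam ≤ 1 - φ)
    (hβ0 : ∀ p, 0 ≤ β p) (hβ1 : ∀ p, β p ≤ 1)
    (hK : ∀ p, β p * ρ p ≤ A' * Id (fun t => kap N (vv t) p))
    (hF : ∀ p, (1 - β p) * ρ p ≤ φ * (A' * Id (flP (PN N) p)))
    {t : ℝ × ℝ} (ht : t ∈ Sim) {y : ℝ} {w s : Fin 3 → ℝ} (hy : y = lam * alP N ζp t)
    (hw : w = fun l => ash (fun p t => φ * flP (PN N) p t)
      (fun p => Id (fun t => φ * flP (PN N) p t)) β A' l t)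
    (hs : s = fun l => ast (fun p t => kap N (vv t) p)
      (fun p => Id (fun t => kap N (vv t) p)) β A' l t) :
    0 ≤ y ∧ (∀ p, 0 ≤ w p) ∧ (∀ p, 0 ≤ s p) ∧
    (∀ k, y * ζ k + (w 0 * MB σ a l τ 0 k + w 1 * MB σ a l τ 1 k + w 2 * MB σ a l τ 2 k) ≤
      xx N (vv t) k) ∧
    (∀ k, w 0 * MB σ a l τ 0 k + w 1 * MB σ a l τ 1 k + w 2 * MB σ a l τ 2 k ≤
      xx N (vv t) k) ∧
    (∀ k, s 0 * MB σ a l τ 0 k + s 1 * MB σ a l τ 1 k + s 2 * MB σ a l τ 2 k ≤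
      rr N (vv t) k) ∧ (∀ k, 0 ≤ xx N (vv t) k) ∧ (∀ k, 0 ≤ rr N (vv t) k) := by
  have h' := h.perm τ
  have v' := viol_perm v τ
  have hz' := hz.perm τ
  have hN : ∀ k m, 0 ≤ N k m := fun k m => by
    rw [hNd]
    exact NM_nonneg h' v' hz' k m
  have hd : ∀ k, N k k = 0 := fun k => by
    rw [hNd]
    exact NM_diag k
  have hcol : ∀ m, nc N m ≤ 9 / 10 := fun m => by
    rw [hNd]
    exact nc_le h' v' hz' m
  have hc : (9 / 10 : ℝ) < 1 := by norm_num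
  have hF0 := flP_pos hN hd hc hcol
  have eI : ∀ p, Id (fun t => φ * flP (PN N) p t) = φ * Id (flP (PN N) p) := fun p =>
    Pool.Agent.Helper55.Mass.Id_const φ _
  have hKp : ∀ p, 0 ≤ Id (fun t => kap N (vv t) p) := fun p => by
    have h1 := mul_nonneg (hβ0 p) (hρ p).le
    have h2 := h1.trans (hK p)
    exact nonneg_of_mul_nonneg_right h2 hA'
  have hF1 : ∀ p, 0 < Id (fun t => φ * flP (PN N) p t) := fun p => by
    rw [eI]
    exact mul_pos hφ0 (hF0 p)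
  have hF2 : ∀ p, (1 - β p) * ρ p ≤ A' * Id (fun t => φ * flP (PN N) p t) := fun p => by
    rw [eI]
    have := hF p
    linarith
  have hf0 : ∀ p, ∀ t, 0 ≤ φ * flP (PN N) p t := fun p t => mul_nonneg hφ0.le (flP_nonneg p t)
  have hκ0 : ∀ p, ∀ t ∈ Sim, 0 ≤ kap N (vv t) p := fun p t ht =>
    kap_nonneg hN hc hcol (fun k => vv_nonneg ht k) p
  have hMB : ∀ p k, MB σ a l τ p k ≤ ρ p := fun p k => by
    unfold MB
    split_ifs with hh
    · exact (hρ p).le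
    · exact hMρ p k hh
  have hf0z : ∀ l, ∀ t, (¬ ∀ k, 0 ≤ mu (PN N) (vt t) k) → φ * flP (PN N) l t = 0 :=
    fun p t ht => by
      rw [flP_zero (by push Not at ht; exact ht) p, mul_zero]
  have b1 := fun k => ash_feas4 (β := β) (ρ := ρ) (A' := A') (F := fun p =>
    Id (fun t => φ * flP (PN N) p t)) (M := MB σ a l τ) (hf := fun p t => φ * flP (PN N) p t)
    hN hd hc hcol hζp hζ hf0 hf0z
    (flP_fx (N := N) (ζp := ζp) (lamM := lam) hζp hφ0 hl0 hl1) hl0 hA' hF1 hβ1 hF2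
    (fun p => MB_diag τ p) hMB ht k
  have b2 := fun k => ash_feas4 (β := β) (ρ := ρ) (A' := A') (F := fun p =>
    Id (fun t => φ * flP (PN N) p t)) (M := MB σ a l τ) (hf := fun p t => φ * flP (PN N) p t)
    (lam := 0) hN hd hc hcol hζp hζ hf0 hf0z
    (flP_fx (N := N) (ζp := ζp) (lamM := 0) hζp hφ0 le_rfl (hl0.trans hl1)) le_rfl hA' hF1 hβ1
    hF2 (fun p => MB_diag τ p) hMB ht k
  have b3 := fun k => ast_feas4 (N := N) (β := β) (ρ := ρ) (A' := A')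
    (κ := fun p t => kap N (vv t) p) (Kp := fun p => Id (fun t => kap N (vv t) p))
    (M := MB σ a l τ) hκ0 (kap_r hN hc hcol) hA' hβ0 hKp hK (fun p => MB_diag τ p) hMB ht k
  have hb : ∀ k, 0 ≤ vv t k := fun k => vv_nonneg ht k
  refine ⟨?_, ?_, ?_, fun k => ?_, fun k => ?_, fun k => ?_, xx_nonneg hN hc hcol hb,
    rr_nonneg hN hc hcol hb⟩
  · rw [hy]
    exact mul_nonneg hl0 (alP_nonneg hζp t)
  · rw [hw]
    exact fun p => ash_nonneg hf0 hA' hF1 hβ1 p t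
  · rw [hs]
    exact fun p => ast_nonneg hκ0 hA' hβ0 hKp p ht
  · have := b1 k
    rw [Fin.sum_univ_three] at this
    rw [hy, hw]
    exact this
  · have := b2 k
    rw [Fin.sum_univ_three] at this
    rw [hw]
    linarith
  · have := b3 k
    rw [Fin.sum_univ_three] at this
    rw [hs]
    exact this

end body

end Pool.Agent.Helper58.MEI
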